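import Pool.Agent.Helper35.GR.LCalc

/-!
# Jets of first and second derivatives of a solution (MP_114a94_gt, P0)
-/

set_option autoImplicit false

open scoped ContDiff Topology
open Set Filter MeasureTheory

namespace Pool.Agent.GR

open Pool.Agent.Helper25.GrimReaper

variable {n : ℕ}

/-- directional derivative -/
noncomputable def dd (v : E n) (f : E n → ℝ) (y : E n) : ℝ := fderiv ℝ f y v

lemma pd_eq_dd (i : Fin n) (f : E n → ℝ) : pd i f = dd (ee i) f := rfl

lemma dd_eq_sum (v : E n) (f : E n → ℝ) (y : E n) : dd v f y = ∑ i, v i * pd i f y :=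
  fderiv_apply_eq_sum f y v

lemma contDiff_dd {f : E n → ℝ} (hf : ContDiff ℝ ∞ f) (v : E n) : ContDiff ℝ ∞ (dd v f) :=
  (hf.fderiv_right (m := ∞) (by simp)).clm_apply contDiff_const

lemma contDiff_Fop {f : E n → ℝ} (hf : ContDiff ℝ ∞ f) : ContDiff ℝ ∞ (Fop f) := by
  have h1 : ∀ i, ContDiff ℝ ∞ (pd i f) := fun i => contDiff_pd hf i
  have h2 : ∀ i j, ContDiff ℝ ∞ (pd i (pd j f)) := fun i j => contDiff_pd (contDiff_pd hf j) i
  have h3 : ContDiff ℝ ∞ (fun x => 1 + gradSq f x) := by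
    unfold gradSq
    exact contDiff_const.add (ContDiff.sum fun i _ => (h1 i).pow 2)
  unfold Fop
  refine (ContDiff.sum fun i _ => h2 i i).sub ((h3.inv fun x => ?_).mul
    (ContDiff.sum fun i _ => ContDiff.sum fun j _ => ((h1 i).mul (h1 j)).mul (h2 i j)))
  have := gradSq_nonneg f x
  positivity

lemma hess_symm {f : E n → ℝ} {x : E n} (hf : ContDiffAt ℝ 2 f x) (v w : E n) :
    hess f x v w = hess f x w v := hf.isSymmSndFDerivAt (by simp) v w

lemma Hv_add (f : E n → ℝ) (x a b : E n) : Hv f x (a + b) = Hv f x a + Hv f x b := by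
  simp [Hv]

lemma Hv_smul (f : E n → ℝ) (x : E n) (c : ℝ) (a : E n) : Hv f x (c • a) = c • Hv f x a := by
  simp [Hv]

lemma Hv_eq_sum (f : E n → ℝ) (x a : E n) : Hv f x a = ∑ i, a i • Hv f x (ee i) := by
  conv_lhs => rw [decomp a]
  simp only [Hv, map_sum, map_smul]

lemma fderiv_dd {f : E n → ℝ} (hf : ContDiff ℝ ∞ f) (v : E n) :
    fderiv ℝ (dd v f) = fun y => hess f y v := by
  funext y
  have h2 : ContDiffAt ℝ 2 f y := hf.contDiffAt.of_le (by norm_cast)
  have h1 := (hasFDerivAt_fderiv h2).clm_apply (hasFDerivAt_const v y)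
  have h3 : fderiv ℝ (dd v f) y = _ := h1.fderiv
  rw [h3]
  ext w
  simp only [add_apply, ContinuousLinearMap.comp_apply, ContinuousLinearMap.flip_apply]
  simp only [zero_apply, map_zero, zero_add]
  exact hess_symm h2 w v

lemma gradient_dd {f : E n → ℝ} (hf : ContDiff ℝ ∞ f) (v x : E n) :
    gradient (dd v f) x = Hv f x v := by
  apply gradient_ext
  intro w
  rw [fderiv_dd hf, inner_Hv]

lemma contDiff_hess {f : E n → ℝ} (hf : ContDiff ℝ ∞ f) : ContDiff ℝ ∞ (hess f) :=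
  (hf.fderiv_right (m := ∞) (by simp)).fderiv_right (m := ∞) (by simp)

/-- `D_v D²f = D²(D_v f)`. -/
lemma hess_dd {f : E n → ℝ} (hf : ContDiff ℝ ∞ f) (v x : E n) :
    hess (dd v f) x = fderiv ℝ (hess f) x v := by
  have h1 : hess (dd v f) x = fderiv ℝ (fun y => hess f y v) x := by
    rw [← fderiv_dd hf]; rfl
  have hd : HasFDerivAt (hess f) (fderiv ℝ (hess f) x) x :=
    ((contDiff_hess hf).differentiable (by simp) x).hasFDerivAt
  have h2 := hd.clm_apply (hasFDerivAt_const v x)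
  rw [h1]
  have h3 : fderiv ℝ (fun y => hess f y v) x = _ := h2.fderiv
  rw [h3]
  ext a b
  simp only [add_apply, ContinuousLinearMap.comp_apply, ContinuousLinearMap.flip_apply]
  simp only [zero_apply, map_zero, zero_add]
  have h4 : IsSymmSndFDerivAt ℝ (fderiv ℝ f) x := by
    have h5 : ContDiffAt ℝ 2 (fderiv ℝ f) x :=
      ((hf.fderiv_right (m := ∞) (by simp)).contDiffAt).of_le (by norm_cast)
    exact h5.isSymmSndFDerivAt (by simp)
  have h5 := h4 a v
  exact congrArg (fun L => L b) h5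

/-- derivative of a smooth function along a line -/
lemma hasDerivAt_line_of_contDiff {F : Type*} [NormedAddCommGroup F] [NormedSpace ℝ F]
    {f : E n → F} {y : E n} (hf : DifferentiableAt ℝ f y) (v : E n) :
    HasDerivAt (fun s : ℝ => f (y + s • v)) (fderiv ℝ f y v) 0 := by
  have h1 : HasDerivAt (fun s : ℝ => y + s • v) v 0 := by
    have := ((hasDerivAt_id (0 : ℝ)).smul_const v).const_add y
    simpa using this
  have h2 : HasFDerivAt f (fderiv ℝ f y) (y + (0 : ℝ) • v) := by simpa using hf.hasFDerivAt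
  exact h2.comp_hasDerivAt (0 : ℝ) h1

lemma hasDerivAt_gradient_line {f : E n → ℝ} (hf : ContDiff ℝ ∞ f) (y v : E n) :
    HasDerivAt (fun s : ℝ => gradient f (y + s • v)) (Hv f y v) 0 := by
  have h := hasFDerivAt_gradient (n := n) (f := f) (x := y) (hf.contDiffAt.of_le (by norm_cast))
  have h1 := hasDerivAt_line_of_contDiff h.differentiableAt v
  rw [h.fderiv] at h1
  exact h1

lemma hasDerivAt_hess_line {f : E n → ℝ} (hf : ContDiff ℝ ∞ f) (y v : E n) :
    HasDerivAt (fun s : ℝ => hess f (y + s • v)) (hess (dd v f) y) 0 := by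
  have h1 := hasDerivAt_line_of_contDiff ((contDiff_hess hf).differentiable (by simp) y) v
  rwa [← hess_dd hf] at h1

/-- derivative of `(1+|p|²)⁻¹` along a curve -/
lemma hasDerivAt_w {p : ℝ → E n} {p' : E n} {s : ℝ} (hp : HasDerivAt p p' s) :
    HasDerivAt (fun r => (1 + ‖p r‖ ^ 2)⁻¹)
      (-(2 * inner ℝ (p s) p') * ((1 + ‖p s‖ ^ 2)⁻¹) ^ 2) s := by
  have h1 : HasDerivAt (fun r => 1 + ‖p r‖ ^ 2) (2 * inner ℝ (p s) p') s := by
    have := hp.norm_sq.const_add 1
    simpa using this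
  have hpos : 0 < 1 + ‖p s‖ ^ 2 := by positivity
  refine (h1.inv hpos.ne').congr_deriv ?_
  field_simp

lemma hasDerivAt_trA {p : ℝ → E n} {p' : E n} {H : ℝ → (E n →L[ℝ] E n →L[ℝ] ℝ)}
    {H' : E n →L[ℝ] E n →L[ℝ] ℝ} {s : ℝ} (hp : HasDerivAt p p' s) (hH : HasDerivAt H H' s)
    (hsym : ∀ a b, H s a b = H s b a) :
    HasDerivAt (fun r => trA (p r) (H r))
      (trA (p s) H' + 2 * ((1 + ‖p s‖ ^ 2)⁻¹) ^ 2 * inner ℝ (p s) p' * H s (p s) (p s)
        - 2 * (1 + ‖p s‖ ^ 2)⁻¹ * H s p' (p s)) s := by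
  unfold trA
  have h1 : HasDerivAt (fun r => ∑ i, H r (ee i) (ee i)) (∑ i, H' (ee i) (ee i)) s := by
    have h2 : ∀ i ∈ (Finset.univ : Finset (Fin n)),
        HasDerivAt (fun r => H r (ee i) (ee i)) (H' (ee i) (ee i)) s := by
      intro i _
      have h3 := (hH.clm_apply (hasDerivAt_const s (ee i))).clm_apply (hasDerivAt_const s (ee i))
      simpa using h3
    simpa using HasDerivAt.fun_sum h2
  have h4 : HasDerivAt (fun r => H r (p r) (p r)) (H' (p s) (p s) + H s p' (p s) + H s (p s) p') s := by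
    have h5 := (hH.clm_apply hp).clm_apply hp
    simpa using h5
  refine (h1.sub ((hasDerivAt_w hp).mul h4)).congr_deriv ?_
  rw [hsym (p s) p']
  ring

/-- `D_v F(f) = gⁱʲ (D_v f)_{ij} - 2 W⁻² g(H v, H p)`. -/
lemma dd_Fop {f : E n → ℝ} (hf : ContDiff ℝ ∞ f) (v y : E n) :
    dd v (Fop f) y = trA (gradient f y) (hess (dd v f) y)
      - 2 * (1 + ‖gradient f y‖ ^ 2)⁻¹ *
        gip (gradient f y) (Hv f y v) (Hv f y (gradient f y)) := by
  have h1 := hasDerivAt_line_of_contDiff ((contDiff_Fop hf).differentiable (by simp) y) v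
  have h2 : (fun s : ℝ => Fop f (y + s • v))
      = fun s : ℝ => trA (gradient f (y + s • v)) (hess f (y + s • v)) := by
    funext s
    exact Fop_eq_trA (hf.contDiffAt.of_le (by norm_cast))
  rw [h2] at h1
  have h3 := hasDerivAt_trA (hasDerivAt_gradient_line hf y v) (hasDerivAt_hess_line hf y v)
    (fun a b => hess_symm (hf.contDiffAt.of_le (by norm_cast)) a b)
  have h4 := h1.unique h3
  simp only [zero_smul, add_zero] at h4
  change fderiv ℝ (Fop f) y v = _
  rw [h4]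
  have e1 : hess f y (Hv f y v) (gradient f y) = inner ℝ (Hv f y v) (Hv f y (gradient f y)) := by
    rw [hess_symm (hf.contDiffAt.of_le (by norm_cast)), ← inner_Hv, real_inner_comm]
  have e2 : hess f y (gradient f y) (gradient f y)
      = inner ℝ (gradient f y) (Hv f y (gradient f y)) := by
    rw [← inner_Hv, real_inner_comm]
  unfold gip
  rw [e1, e2]
  ring

section
variable {I : Set ℝ} {u : ℝ → E n → ℝ} {t : ℝ} {x : E n}

lemma IsSolOn.hasDeriv_dd (hu : IsSolOn I univ u) (ht : t ∈ I) (v : E n) (x : E n) :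
    HasDerivWithinAt (fun s => dd v (u s) x) (dd v (Fop (u t)) x) I t := by
  simp only [dd_eq_sum]
  refine HasDerivWithinAt.fun_sum fun i _ => ?_
  exact (hu.deriv [i] t ht x (mem_univ x)).const_mul _

theorem LJet_dd (hu : IsSolOn I univ u) (ht : t ∈ I) (v : E n) :
    LJet (gradient (u t) x) I t x (fun s y => dd v (u s) y) (Hv (u t) x v)
      (-2 * (1 + ‖gradient (u t) x‖ ^ 2)⁻¹ *
        gip (gradient (u t) x) (Hv (u t) x v) (Hv (u t) x (gradient (u t) x))) where
  c2 := (contDiff_dd (hu.contDiff ht) v).contDiffAt.of_le (by norm_cast)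
  grad := gradient_dd (hu.contDiff ht) v x
  heat := by
    refine ⟨_, hu.hasDeriv_dd ht v x, ?_⟩
    rw [dd_Fop (hu.contDiff ht)]
    ring

theorem LJet_pd (hu : IsSolOn I univ u) (ht : t ∈ I) (k : Fin n) :
    LJet (gradient (u t) x) I t x (fun s y => pd k (u s) y) (Hv (u t) x (ee k))
      (-2 * (1 + gradSq (u t) x)⁻¹ *
        gip (gradient (u t) x) (Hv (u t) x (ee k)) (Hv (u t) x (gradient (u t) x))) := by
  have h := LJet_dd (x := x) hu ht (ee k)
  rw [norm_gradient_sq] at h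
  exact h

/-- `L W² = -4 W⁻² g(Hp,Hp) - 2 ∑ₖ g(Heₖ,Heₖ)`, `∇W² = 2Hp`. -/
theorem LJet_gradSq (hu : IsSolOn I univ u) (ht : t ∈ I) :
    LJet (gradient (u t) x) I t x (fun s y => gradSq (u s) y)
      ((2 : ℝ) • Hv (u t) x (gradient (u t) x))
      (-4 * (1 + gradSq (u t) x)⁻¹ * gip (gradient (u t) x)
          (Hv (u t) x (gradient (u t) x)) (Hv (u t) x (gradient (u t) x))
        - 2 * ∑ k, gip (gradient (u t) x) (Hv (u t) x (ee k)) (Hv (u t) x (ee k))) := by
  have h1 := LJet.sum (Finset.univ : Finset (Fin n))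
    (fun k => fun s y => pd k (u s) y * pd k (u s) y) _ _
    (fun k _ => (LJet_pd (x := x) hu ht k).mul (LJet_pd (x := x) hu ht k))
  have h2 : (fun s y => gradSq (u s) y) = fun s y => ∑ k : Fin n, pd k (u s) y * pd k (u s) y := by
    funext s y
    unfold gradSq
    exact Finset.sum_congr rfl fun k _ => by ring
  rw [h2]
  refine h1.congr ?_ ?_
  · rw [Hv_eq_sum (u t) x (gradient (u t) x), Finset.smul_sum]
    refine Finset.sum_congr rfl fun k _ => ?_
    rw [gradient_apply, two_smul]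
  · rw [Finset.sum_sub_distrib, ← Finset.mul_sum]
    congr 1
    have h3 : gip (gradient (u t) x) (Hv (u t) x (gradient (u t) x))
        (Hv (u t) x (gradient (u t) x)) = ∑ k, pd k (u t) x *
          gip (gradient (u t) x) (Hv (u t) x (ee k)) (Hv (u t) x (gradient (u t) x)) := by
      conv_lhs => rw [Hv_eq_sum (u t) x (gradient (u t) x), gip_sum_left]
      refine Finset.sum_congr rfl fun k _ => ?_
      rw [gip_smul_left, gradient_apply, ← Hv_eq_sum]
    rw [h3, Finset.mul_sum]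
    refine Finset.sum_congr rfl fun k _ => ?_
    ring
end

/-- `gⁱʲ(p) = (S Sᵀ)ⁱʲ`: the square root of the metric. -/
lemma gip_eq_sqrt (p : E n) : ∃ s : ℝ, ∀ d e : E n,
    gip p d e = inner ℝ (d - (s * inner ℝ p d) • p) (e - (s * inner ℝ p e) • p) := by
  set q := Real.sqrt (1 + ‖p‖ ^ 2) with hqdef
  have hpos : 0 < 1 + ‖p‖ ^ 2 := by positivity
  have hq : 0 < q := Real.sqrt_pos.2 hpos
  have hsq : q ^ 2 = 1 + ‖p‖ ^ 2 := Real.sq_sqrt hpos.le
  refine ⟨1 / (q * (q + 1)), fun d e => ?_⟩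
  unfold gip
  have hp2 : ‖p‖ ^ 2 = q ^ 2 - 1 := by rw [hsq]; ring
  simp only [inner_sub_left, inner_sub_right, inner_smul_left, inner_smul_right,
    real_inner_self_eq_norm_sq, RCLike.conj_to_real]
  rw [← hsq, hp2, real_inner_comm p d]
  field_simp
  ring

/-- Cauchy-Schwarz for the trace -/
theorem gip_Hv_le (f : E n → ℝ) (x p a : E n) :
    gip p (Hv f x a) (Hv f x a) ≤ ‖a‖ ^ 2 * ∑ k, gip p (Hv f x (ee k)) (Hv f x (ee k)) := by
  obtain ⟨s, hs⟩ := gip_eq_sqrt p
  set S : E n → E n := fun d => d - (s * inner ℝ p d) • p with hS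
  have hself : ∀ d, gip p d d = ‖S d‖ ^ 2 := fun d => by
    rw [hs, real_inner_self_eq_norm_sq]
  have hlin : S (Hv f x a) = ∑ k, a k • S (Hv f x (ee k)) := by
    simp only [hS, smul_sub, Finset.sum_sub_distrib, ← Hv_eq_sum]
    congr 1
    conv_lhs => rw [Hv_eq_sum f x a, inner_sum, Finset.mul_sum, Finset.sum_smul]
    refine Finset.sum_congr rfl fun k _ => ?_
    rw [inner_smul_right, smul_smul]
    congr 1; ring
  simp only [hself]
  rw [hlin]
  have h1 : ‖∑ k, a k • S (Hv f x (ee k))‖ ≤ ∑ k, |a k| * ‖S (Hv f x (ee k))‖ := by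
    refine (norm_sum_le _ _).trans (le_of_eq (Finset.sum_congr rfl fun k _ => ?_))
    rw [norm_smul, Real.norm_eq_abs]
  have h2 : (∑ k, |a k| * ‖S (Hv f x (ee k))‖) ^ 2
      ≤ (∑ k, |a k| ^ 2) * ∑ k, ‖S (Hv f x (ee k))‖ ^ 2 := Finset.sum_mul_sq_le_sq_mul_sq _ _ _
  have h3 : ∑ k, |a k| ^ 2 = ‖a‖ ^ 2 := by
    rw [← sq_sum_eq]
    exact Finset.sum_congr rfl fun k _ => by rw [sq_abs, sq]
  rw [h3] at h2
  exact (pow_le_pow_left₀ (norm_nonneg _) h1 2).trans h2

end Pool.Agent.GR
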