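import Pool.Agent.Helper35.GR.HessEst

/-!
# Interior `C²` estimate for graphical mean curvature flow (MP_114a94_gt, P8), conclusion
-/

set_option autoImplicit false

open scoped ContDiff Topology
open Set Filter MeasureTheory

namespace Pool.Agent.GR

open Pool.Agent.Helper25.GrimReaper

variable {n : ℕ}

lemma P8_cont_hess {T' : ℝ} {u : ℝ → E n → ℝ} (hu : IsSolOn (Icc 0 T') univ u) :
    ContinuousOn (fun q : ℝ × E n × E n => hess (u q.1) q.2.1 q.2.2 q.2.2)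
      (Icc 0 T' ×ˢ (univ ×ˢ univ)) := by
  have h1 : ContinuousOn (fun q : ℝ × E n × E n =>
      ∑ i, ∑ j, q.2.2 i * q.2.2 j * pd i (pd j (u q.1)) q.2.1) (Icc 0 T' ×ˢ (univ ×ˢ univ)) := by
    refine continuousOn_finsetSum _ fun i _ => continuousOn_finsetSum _ fun j _ => ?_
    have h2 : ContinuousOn (fun q : ℝ × E n × E n => pd i (pd j (u q.1)) q.2.1)
        (Icc 0 T' ×ˢ (univ ×ˢ univ)) := by
      have h3 : Continuous (fun q : ℝ × E n × E n => ((q.1, q.2.1) : ℝ × E n)) := by fun_prop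
      exact (hu.cont [i, j]).comp h3.continuousOn (fun q hq => ⟨hq.1, mem_univ _⟩)
    have h4 : Continuous (fun q : ℝ × E n × E n => q.2.2 i * q.2.2 j) := by fun_prop
    exact h4.continuousOn.mul h2
  refine h1.congr fun q hq => ?_
  have hf := hu.contDiff hq.1
  rw [← dd_dd_eq_hess hf, dd_dd_eq_sum hf]

lemma P8_cont_gradSq {T' : ℝ} {u : ℝ → E n → ℝ} (hu : IsSolOn (Icc 0 T') univ u) :
    ContinuousOn (fun q : ℝ × E n × E n => gradSq (u q.1) q.2.1)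
      (Icc 0 T' ×ˢ (univ ×ˢ univ)) := by
  unfold gradSq
  refine continuousOn_finsetSum _ fun i _ => ?_
  have h3 : Continuous (fun q : ℝ × E n × E n => ((q.1, q.2.1) : ℝ × E n)) := by fun_prop
  exact ((hu.cont [i]).comp h3.continuousOn (fun q hq => ⟨hq.1, mem_univ _⟩)).pow 2

lemma P8_cont_gq {T' : ℝ} {u : ℝ → E n → ℝ} (hu : IsSolOn (Icc 0 T') univ u) :
    ContinuousOn (fun q : ℝ × E n × E n => gq (u q.1) q.2.1 q.2.2)
      (Icc 0 T' ×ˢ (univ ×ˢ univ)) := by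
  have h1 : ContinuousOn (fun q : ℝ × E n × E n => ‖q.2.2‖ ^ 2 +
      (∑ i, q.2.2 i * pd i (u q.1) q.2.1) ^ 2) (Icc 0 T' ×ˢ (univ ×ˢ univ)) := by
    have h4 : Continuous (fun q : ℝ × E n × E n => ‖q.2.2‖ ^ 2) := by fun_prop
    refine h4.continuousOn.add (ContinuousOn.pow ?_ 2)
    refine continuousOn_finsetSum _ fun i _ => ?_
    have h3 : Continuous (fun q : ℝ × E n × E n => ((q.1, q.2.1) : ℝ × E n)) := by fun_prop
    have h5 : Continuous (fun q : ℝ × E n × E n => q.2.2 i) := by fun_prop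
    exact h5.continuousOn.mul
      ((hu.cont [i]).comp h3.continuousOn (fun q hq => ⟨hq.1, mem_univ _⟩))
  refine h1.congr fun q hq => ?_
  unfold gq
  rw [inner_gradient, fderiv_apply_eq_sum]

lemma P8_onesided {R : ℝ} (hR : 0 < R) {M₁ T₁ : ℝ} (hM₁ : 0 ≤ M₁) (hT₁ : 0 ≤ T₁) {T' : ℝ}
    (hT' : T' ≤ T₁) {u : ℝ → E n → ℝ} {x₀ : E n} (hu : IsSolOn (Icc 0 T') univ u)
    (hgrad : ∀ s ∈ Icc 0 T', ∀ y ∈ Metric.closedBall x₀ R, gradSq (u s) y ≤ M₁)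
    {c K₀ : ℝ} (hc : c = 2 * (1 + M₁))
    (hK₀ : K₀ = T₁ * R ^ 4 * ((R ^ 4 + 4 * n * T₁ * R ^ 2) + 9 * c ^ 2 * (16 * T₁ * R ^ 2)
      + 2 * (16 * T₁ * R ^ 2)) + 1) :
    ∀ s ∈ Icc 0 T', ∀ y ∈ Metric.closedBall x₀ R, ∀ ζ : E n,
      cut R x₀ s y * hess (u s) y ζ ζ ≤ K₀ * ((c - 1 - gradSq (u s) y) * gq (u s) y ζ) := by
  by_contra hcon
  push Not at hcon
  obtain ⟨t₁, ht₁, x₁, hx₁, v₁, hv₁⟩ := hcon
  have hn : (0 : ℝ) ≤ n := Nat.cast_nonneg n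
  have hK₀1 : 1 ≤ K₀ := by
    rw [hK₀]
    have : 0 ≤ T₁ * R ^ 4 * ((R ^ 4 + 4 * n * T₁ * R ^ 2) + 9 * c ^ 2 * (16 * T₁ * R ^ 2)
      + 2 * (16 * T₁ * R ^ 2)) := by positivity
    linarith
  have hσ : ∀ s ∈ Icc 0 T', ∀ y ∈ Metric.closedBall x₀ R, 0 < c - 1 - gradSq (u s) y := by
    intro s hs y hy
    have := hgrad s hs y hy
    rw [hc]; linarith
  have hv₁0 : v₁ ≠ 0 := by
    rintro rfl
    simp [gq] at hv₁
  set S : Set (ℝ × E n × E n) := Icc 0 T' ×ˢ (Metric.closedBall x₀ R ×ˢ Metric.sphere (0 : E n) 1)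
    with hS
  have hSc : IsCompact S :=
    isCompact_Icc.prod ((isCompact_closedBall x₀ R).prod (isCompact_sphere 0 1))
  have hSsub : S ⊆ Icc 0 T' ×ˢ (univ ×ˢ univ) :=
    prod_mono le_rfl (prod_mono (subset_univ _) (subset_univ _))
  set Θ : ℝ × E n × E n → ℝ := fun q => cut R x₀ q.1 q.2.1 * hess (u q.1) q.2.1 q.2.2 q.2.2
    / ((c - 1 - gradSq (u q.1) q.2.1) * gq (u q.1) q.2.1 q.2.2) with hΘ
  have hden : ∀ q ∈ S, 0 < (c - 1 - gradSq (u q.1) q.2.1) * gq (u q.1) q.2.1 q.2.2 := by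
    intro q hq
    refine mul_pos (hσ _ hq.1 _ hq.2.1) ?_
    have h1 := norm_sq_le_gq (u q.1) q.2.1 q.2.2
    have h2 : ‖q.2.2‖ = 1 := by simpa using hq.2.2
    rw [h2] at h1; linarith
  have hΘc : ContinuousOn Θ S := by
    refine ContinuousOn.div ?_ ?_ fun q hq => (hden q hq).ne'
    · have h3 : Continuous (fun q : ℝ × E n × E n => ((q.1, q.2.1) : ℝ × E n)) := by fun_prop
      exact ((continuous_cut R x₀).comp h3).continuousOn.mul ((P8_cont_hess hu).mono hSsub)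
    · exact (continuousOn_const.sub ((P8_cont_gradSq hu).mono hSsub)).mul
        ((P8_cont_gq hu).mono hSsub)
  have hunit : ∀ ζ : E n, ζ ≠ 0 → ‖ζ‖⁻¹ • ζ ∈ Metric.sphere (0 : E n) 1 := by
    intro ζ hζ
    simp [norm_smul, hζ]
  have hHsm : ∀ (s : ℝ) (y ζ : E n) (r : ℝ), hess (u s) y (r • ζ) (r • ζ)
      = r ^ 2 * hess (u s) y ζ ζ := by
    intro s y ζ r
    simp only [map_smul, smul_apply, smul_eq_mul]; ring
  have hq1 : ((t₁, x₁, ‖v₁‖⁻¹ • v₁) : ℝ × E n × E n) ∈ S := ⟨ht₁, hx₁, hunit v₁ hv₁0⟩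
  obtain ⟨⟨t, x, v⟩, hmem, hmax⟩ := hSc.exists_isMaxOn ⟨_, hq1⟩ hΘc
  set K := Θ (t, x, v) with hKdef
  have hval : ∀ s ∈ Icc 0 T', ∀ y ∈ Metric.closedBall x₀ R, ∀ ζ : E n, ∀ k : ℝ, ζ ≠ 0 →
      (Θ (s, y, ‖ζ‖⁻¹ • ζ) ≤ k ↔
        cut R x₀ s y * hess (u s) y ζ ζ ≤ k * ((c - 1 - gradSq (u s) y) * gq (u s) y ζ)) := by
    intro s hs y hy ζ k hζ
    have hmem' : ((s, y, ‖ζ‖⁻¹ • ζ) : ℝ × E n × E n) ∈ S := ⟨hs, hy, hunit ζ hζ⟩
    have h1 := hden _ hmem'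
    simp only [hΘ]
    rw [div_le_iff₀ h1, hHsm, gq_smul]
    have h2 : 0 < ‖ζ‖⁻¹ ^ 2 := by
      have := norm_pos_iff.2 hζ
      positivity
    constructor
    · intro h
      have h3 : ‖ζ‖⁻¹ ^ 2 * (cut R x₀ s y * hess (u s) y ζ ζ)
          ≤ ‖ζ‖⁻¹ ^ 2 * (k * ((c - 1 - gradSq (u s) y) * gq (u s) y ζ)) := by
        calc _ = cut R x₀ s y * (‖ζ‖⁻¹ ^ 2 * hess (u s) y ζ ζ) := by ring
          _ ≤ _ := h
          _ = _ := by ring
      exact le_of_mul_le_mul_left h3 h2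
    · intro h
      calc _ = ‖ζ‖⁻¹ ^ 2 * (cut R x₀ s y * hess (u s) y ζ ζ) := by ring
        _ ≤ ‖ζ‖⁻¹ ^ 2 * (k * ((c - 1 - gradSq (u s) y) * gq (u s) y ζ)) :=
          mul_le_mul_of_nonneg_left h h2.le
        _ = _ := by ring
  have hKK₀ : K₀ < K := by
    have h1 : ¬ Θ (t₁, x₁, ‖v₁‖⁻¹ • v₁) ≤ K₀ := by
      rw [hval t₁ ht₁ x₁ hx₁ v₁ K₀ hv₁0]
      exact not_le.2 hv₁
    exact (not_le.1 h1).trans_le (hmax hq1)
  have hK : 0 < K := by linarith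
  have hle : ∀ s ∈ Icc 0 T', ∀ y ∈ Metric.closedBall x₀ R, ∀ ζ : E n,
      cut R x₀ s y * hess (u s) y ζ ζ ≤ K * ((c - 1 - gradSq (u s) y) * gq (u s) y ζ) := by
    intro s hs y hy ζ
    by_cases hζ : ζ = 0
    · subst hζ
      simp [gq]
    · rw [← hval s hs y hy ζ K hζ]
      exact hmax (show ((s, y, ‖ζ‖⁻¹ • ζ) : ℝ × E n × E n) ∈ S from ⟨hs, hy, hunit ζ hζ⟩)
  have ht : t ∈ Icc 0 T' := hmem.1
  have hx : x ∈ Metric.closedBall x₀ R := hmem.2.1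
  have heq0 : cut R x₀ t x * hess (u t) x v v
      = K * ((c - 1 - gradSq (u t) x) * gq (u t) x v) := by
    have h1 := hden _ hmem
    rw [hKdef]
    simp only [hΘ]
    rw [div_mul_cancel₀ _ h1.ne']
  have hgpos : 0 < gq (u t) x v := by
    have h1 := norm_sq_le_gq (u t) x v
    have h2 : ‖v‖ = 1 := by simpa using hmem.2.2
    rw [h2] at h1; linarith
  have hcut : 0 < cut R x₀ t x := by
    rcases (cut_nonneg (R := R) (x₀ := x₀) (x := x) ht.1).eq_or_lt with h | h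
    · exfalso
      rw [← h, zero_mul] at heq0
      have := mul_pos hK (mul_pos (hσ t ht x hx) hgpos)
      linarith
    · exact h
  obtain ⟨htpos, hxb⟩ := cut_pos ht.1 hx hcut
  set r := (Real.sqrt (gq (u t) x v))⁻¹ with hr
  have hr2 : r ^ 2 * gq (u t) x v = 1 := by
    rw [hr, inv_pow, Real.sq_sqrt hgpos.le]
    field_simp
  have hb := P8_at_max hu hR (x₀ := x₀) (M₁ := M₁) ⟨htpos, ht.2⟩ (x := x) (v := r • v) hc hM₁
    hxb hK hgrad hcut (by rw [gq_smul, hr2]) (by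
      rw [hHsm]
      calc cut R x₀ t x * (r ^ 2 * hess (u t) x v v)
          = r ^ 2 * (cut R x₀ t x * hess (u t) x v v) := by ring
        _ = K * ((c - 1 - gradSq (u t) x) * (r ^ 2 * gq (u t) x v)) := by rw [heq0]; ring
        _ = _ := by rw [hr2]) hle
  have hT'0 : 0 ≤ T' := ht.1.trans ht.2
  have hb2 : K ^ 2 ≤ K₀ - 1 := by
    rw [hK₀]
    refine hb.trans ?_
    rw [add_sub_cancel_right]
    gcongr
  nlinarith

/-- **Interior `C²` estimate.** -/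
theorem hess_est (n : ℕ) {R : ℝ} (hR : 0 < R) (M T : ℝ) : ∃ C : ℝ,
    ∀ T' ≤ T, ∀ (u : ℝ → E n → ℝ) (x₀ : E n), IsSolOn (Icc 0 T') univ u →
      (∀ t ∈ Icc 0 T', ∀ x ∈ Metric.closedBall x₀ R, gradSq (u t) x ≤ M) →
      ∀ t ∈ Icc 0 T', ∀ i j : Fin n, t * |pd i (pd j (u t)) x₀| ≤ C := by
  set M₁ := max M 0 with hM₁
  set T₁ := max T 0 with hT₁
  set c := 2 * (1 + M₁) with hc
  set K₀ := T₁ * R ^ 4 * ((R ^ 4 + 4 * n * T₁ * R ^ 2) + 9 * c ^ 2 * (16 * T₁ * R ^ 2)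
      + 2 * (16 * T₁ * R ^ 2)) + 1 with hK₀
  have hM₁0 : 0 ≤ M₁ := le_max_right _ _
  have hT₁0 : 0 ≤ T₁ := le_max_right _ _
  have hK₀0 : 0 ≤ K₀ := by rw [hK₀]; positivity
  have hc0 : 0 ≤ c := by rw [hc]; positivity
  refine ⟨3 * (K₀ * (c * (1 + M₁)) / R ^ 4), fun T' hT' u x₀ hu hgrad t ht i j => ?_⟩
  have hx₀ : x₀ ∈ Metric.closedBall x₀ R := Metric.mem_closedBall_self hR.le
  have hgrad₁ : ∀ s ∈ Icc 0 T', ∀ y ∈ Metric.closedBall x₀ R, gradSq (u s) y ≤ M₁ :=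
    fun s hs y hy => (hgrad s hs y hy).trans (le_max_left _ _)
  have hgn : ∀ (s : ℝ) (y : E n), gradSq (fun z => -u s z) y = gradSq (u s) y := by
    intro s y
    unfold gradSq
    exact Finset.sum_congr rfl fun k _ => by rw [pd_neg, neg_sq]
  have hone : ∀ (w : ℝ → E n → ℝ), IsSolOn (Icc 0 T') univ w →
      (∀ s ∈ Icc 0 T', ∀ y ∈ Metric.closedBall x₀ R, gradSq (w s) y ≤ M₁) → ∀ v : E n,
      t * hess (w t) x₀ v v ≤ K₀ * (c * (1 + M₁)) / R ^ 4 * ‖v‖ ^ 2 := by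
    intro w hw hgw v
    have h1 := P8_onesided hR hM₁0 hT₁0 (hT'.trans (le_max_left _ _)) hw hgw hc hK₀ t ht x₀ hx₀ v
    rw [cut_center] at h1
    have h2 : (c - 1 - gradSq (w t) x₀) * gq (w t) x₀ v ≤ c * (1 + M₁) * ‖v‖ ^ 2 := by
      have h3 := gq_le (w t) x₀ v
      have h4 := hgw t ht x₀ hx₀
      have h5 := gradSq_nonneg (w t) x₀
      have h6 := gq_nonneg (w t) x₀ v
      calc (c - 1 - gradSq (w t) x₀) * gq (w t) x₀ v ≤ c * gq (w t) x₀ v :=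
            mul_le_mul_of_nonneg_right (by linarith) h6
        _ ≤ c * ((1 + M₁) * ‖v‖ ^ 2) := by
            refine mul_le_mul_of_nonneg_left (h3.trans ?_) hc0
            exact mul_le_mul_of_nonneg_right (by linarith) (by positivity)
        _ = _ := by ring
    have h7 : t * R ^ 4 * hess (w t) x₀ v v ≤ K₀ * (c * (1 + M₁) * ‖v‖ ^ 2) :=
      h1.trans (mul_le_mul_of_nonneg_left h2 hK₀0)
    rw [div_mul_eq_mul_div, le_div_iff₀ (by positivity)]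
    linarith
  have hf := hu.contDiff ht
  have hneg : ∀ v : E n, hess (fun z => -u t z) x₀ v v = -hess (u t) x₀ v v := by
    intro v
    have h0 := hu.neg.contDiff ht
    rw [← dd_dd_eq_hess h0, dd_dd_eq_sum h0, ← dd_dd_eq_hess hf, dd_dd_eq_sum hf,
      ← Finset.sum_neg_distrib]
    refine Finset.sum_congr rfl fun i _ => ?_
    rw [← Finset.sum_neg_distrib]
    refine Finset.sum_congr rfl fun j _ => ?_
    have h1 : pd j (fun z => -u t z) = fun z => -pd j (u t) z := funext fun z => pd_neg _ z j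
    rw [h1, pd_neg]; ring
  have hup := hone u hu hgrad₁
  have hlo := hone (fun s y => -u s y) hu.neg (fun s hs y hy => by rw [hgn]; exact hgrad₁ s hs y hy)
  simp only [hneg] at hlo
  set C₁ := K₀ * (c * (1 + M₁)) / R ^ 4 with hC₁
  have hC₁0 : 0 ≤ C₁ := by positivity
  have habs : ∀ v : E n, |t * hess (u t) x₀ v v| ≤ C₁ * ‖v‖ ^ 2 := by
    intro v
    rw [abs_le]
    constructor
    · linarith [hlo v]
    · exact hup v
  have hij : pd i (pd j (u t)) x₀ = (hess (u t) x₀ (ee i + ee j) (ee i + ee j)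
      - hess (u t) x₀ (ee i) (ee i) - hess (u t) x₀ (ee j) (ee j)) / 2 := by
    rw [← hess_basis (hu.contDiffAt ht)]
    simp only [map_add, add_apply]
    rw [hess_symm (hu.contDiffAt ht) (ee j) (ee i)]
    ring
  have hn1 : ∀ k : Fin n, ‖(ee k : E n)‖ = 1 := fun k => by simp
  have h1 := habs (ee i + ee j)
  have h2 := habs (ee i)
  have h3 := habs (ee j)
  rw [hn1] at h2 h3
  have h4 : ‖(ee i : E n) + ee j‖ ^ 2 ≤ 4 := by
    have := norm_add_le (ee i : E n) (ee j)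
    rw [hn1, hn1] at this
    nlinarith [norm_nonneg ((ee i : E n) + ee j)]
  have h5 : |t * hess (u t) x₀ (ee i + ee j) (ee i + ee j)| ≤ C₁ * 4 :=
    h1.trans (mul_le_mul_of_nonneg_left h4 hC₁0)
  have h6 : t * |pd i (pd j (u t)) x₀| = |t * pd i (pd j (u t)) x₀| := by
    rw [abs_mul, abs_of_nonneg ht.1]
  rw [h6, hij]
  rw [abs_le] at h2 h3 h5 ⊢
  constructor <;> nlinarith [h2.1, h2.2, h3.1, h3.2, h5.1, h5.2]

end Pool.Agent.GR
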