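import Pool.Agent.Helper35.GR.LCalc2

/-!
# The cutoff function `η = t (R² - |x - x₀|²)²` (MP_114a94_gt)
-/

set_option autoImplicit false

open scoped ContDiff Topology
open Set Filter MeasureTheory

namespace Pool.Agent.GR

open Pool.Agent.Helper25.GrimReaper

variable {n : ℕ}

/-- The cutoff function `η = t (R² - |x - x₀|²)²`. -/
noncomputable def cut (R : ℝ) (x₀ : E n) (t : ℝ) (x : E n) : ℝ :=
  t * ((R ^ 2 - ‖x - x₀‖ ^ 2) * (R ^ 2 - ‖x - x₀‖ ^ 2))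

lemma cut_nonneg {R : ℝ} {x₀ : E n} {t : ℝ} {x : E n} (ht : 0 ≤ t) : 0 ≤ cut R x₀ t x :=
  mul_nonneg ht (mul_self_nonneg _)

lemma cut_le {R : ℝ} (_hR : 0 < R) {x₀ : E n} {t T : ℝ} {x : E n} (ht : 0 ≤ t) (hT : t ≤ T)
    (hx : x ∈ Metric.closedBall x₀ R) : cut R x₀ t x ≤ T * R ^ 4 := by
  rw [Metric.mem_closedBall, dist_eq_norm] at hx
  have h1 : ‖x - x₀‖ ^ 2 ≤ R ^ 2 := pow_le_pow_left₀ (norm_nonneg _) hx 2
  have h2 : 0 ≤ ‖x - x₀‖ ^ 2 := by positivity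
  have h3 : (R ^ 2 - ‖x - x₀‖ ^ 2) * (R ^ 2 - ‖x - x₀‖ ^ 2) ≤ R ^ 2 * R ^ 2 :=
    mul_le_mul (by linarith) (by linarith) (by linarith) (by positivity)
  unfold cut
  calc t * ((R ^ 2 - ‖x - x₀‖ ^ 2) * (R ^ 2 - ‖x - x₀‖ ^ 2)) ≤ T * (R ^ 2 * R ^ 2) :=
        mul_le_mul hT h3 (mul_self_nonneg _) (le_trans ht hT)
    _ = T * R ^ 4 := by ring

lemma cut_center (R : ℝ) (x₀ : E n) (t : ℝ) : cut R x₀ t x₀ = t * R ^ 4 := by
  simp only [cut, sub_self, norm_zero]; ring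

/-- if the cutoff is positive on the closed ball then the point is interior and `t > 0`. -/
lemma cut_pos {R : ℝ} {x₀ : E n} {t : ℝ} {x : E n} (ht : 0 ≤ t)
    (hx : x ∈ Metric.closedBall x₀ R) (h : 0 < cut R x₀ t x) :
    0 < t ∧ x ∈ Metric.ball x₀ R := by
  constructor
  · rcases ht.eq_or_lt with h0 | h0
    · rw [← h0] at h; simp [cut] at h
    · exact h0
  · rw [Metric.mem_closedBall] at hx
    rw [Metric.mem_ball]
    refine lt_of_le_of_ne hx fun h1 => ?_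
    rw [dist_eq_norm] at h1
    rw [cut, h1] at h
    simp at h

lemma continuous_cut (R : ℝ) (x₀ : E n) :
    Continuous (fun q : ℝ × E n => cut R x₀ q.1 q.2) := by
  unfold cut; fun_prop

/-- The jet of the cutoff, with bounds. -/
lemma LJet_cut {p : E n} {I : Set ℝ} {t : ℝ} {x : E n} {R : ℝ} (x₀ : E n) (hR : 0 < R)
    (ht : 0 ≤ t) (hx : x ∈ Metric.closedBall x₀ R) :
    ∃ (d : E n) (l : ℝ), LJet p I t x (cut R x₀) d l ∧
      ‖d‖ ^ 2 ≤ 16 * t * R ^ 2 * cut R x₀ t x ∧ l ≤ R ^ 4 + 4 * n * t * R ^ 2 ∧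
      |l| ≤ R ^ 4 + (4 * n + 8) * t * R ^ 2 := by
  have h1 : LJet p I t x (fun s _ => s) 0 1 := LJet.time (hasDerivWithinAt_id t I)
  have h2 : LJet p I t x (fun _ y => R ^ 2 - ‖y - x₀‖ ^ 2) _ _ :=
    (LJet.const (R ^ 2)).sub (LJet.sqdist x₀)
  have h3 := h1.mul (h2.mul h2)
  rw [Metric.mem_closedBall, dist_eq_norm] at hx
  set r2 := ‖x - x₀‖ ^ 2 with hr2
  have hr : r2 ≤ R ^ 2 := pow_le_pow_left₀ (norm_nonneg _) hx 2
  have hr0 : 0 ≤ r2 := by positivity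
  set ρ := R ^ 2 - r2 with hρ
  have hρ0 : 0 ≤ ρ := by linarith
  have hρ1 : ρ ≤ R ^ 2 := by linarith
  have hpos : 0 < 1 + ‖p‖ ^ 2 := by positivity
  set θ := (1 + ‖p‖ ^ 2)⁻¹ * ‖p‖ ^ 2 with hθ
  have hθ0 : 0 ≤ θ := by positivity
  have hθ1 : θ ≤ 1 := by rw [hθ, inv_mul_le_iff₀ hpos]; linarith
  set G := gip p (0 - (2 : ℝ) • (x - x₀)) (0 - (2 : ℝ) • (x - x₀)) with hG
  have hG0 : 0 ≤ G := gip_self_nonneg _ _
  have hG1 : G ≤ 4 * R ^ 2 := by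
    refine (gip_self_le _ _).trans ?_
    rw [zero_sub, norm_neg, norm_smul, mul_pow, ← hr2]
    norm_num
    linarith
  refine ⟨_, _, h3, ?_, ?_, ?_⟩
  · have e : t • (ρ • ((0 : E n) - (2 : ℝ) • (x - x₀)) + ρ • ((0 : E n) - (2 : ℝ) • (x - x₀)))
        + (ρ * ρ) • (0 : E n) = (-4 * t * ρ) • (x - x₀) := by
      module
    rw [e, norm_smul, mul_pow, ← hr2, Real.norm_eq_abs, sq_abs]
    have : cut R x₀ t x = t * (ρ * ρ) := rfl
    rw [this]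
    have h4 : 0 ≤ t ^ 2 * ρ ^ 2 * (R ^ 2 - r2) := by positivity
    nlinarith
  all_goals
    have hn : (0 : ℝ) ≤ n := Nat.cast_nonneg n
    have hθn : θ ≤ n := by
      rcases Nat.eq_zero_or_pos n with h0 | h0
      · subst h0
        have : p = 0 := Subsingleton.elim _ _
        rw [hθ, this]; simp
      · have : (1 : ℝ) ≤ n := by exact_mod_cast h0
        linarith
    have h5 : 0 ≤ ρ * (n - θ) := mul_nonneg hρ0 (by linarith)
    have h6 : ρ * (n - θ) ≤ R ^ 2 * n := mul_le_mul hρ1 (by linarith) (by linarith) (by positivity)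
    have h7 : ρ * ρ ≤ R ^ 4 := by
      calc ρ * ρ ≤ R ^ 2 * R ^ 2 := mul_le_mul hρ1 hρ1 hρ0 (by positivity)
        _ = R ^ 4 := by ring
    have h8 : 0 ≤ ρ * ρ := mul_self_nonneg ρ
    have h9 : t * (ρ * (n - θ)) ≤ t * (R ^ 2 * n) := mul_le_mul_of_nonneg_left h6 ht
    have h10 : t * G ≤ t * (4 * R ^ 2) := mul_le_mul_of_nonneg_left hG1 ht
    have h11 : 0 ≤ t * G := by positivity
    have h12 : 0 ≤ t * (ρ * (n - θ)) := by positivity
    have e : t * (ρ * (0 - -2 * (n - θ)) + ρ * (0 - -2 * (n - θ)) - 2 * G) + ρ * ρ * 1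
        - 2 * gip p 0 (ρ • ((0 : E n) - (2 : ℝ) • (x - x₀)) + ρ • ((0 : E n) - (2 : ℝ) • (x - x₀)))
        = ρ * ρ + 4 * (t * (ρ * (n - θ))) - 2 * (t * G) := by
      rw [gip_zero_left]; ring
  · rw [e]; nlinarith
  · rw [e, abs_le]
    constructor
    · nlinarith [pow_pos hR 4, pow_pos hR 2, mul_nonneg ht (sq_nonneg R),
        mul_nonneg hn (mul_nonneg ht (sq_nonneg R))]
    · nlinarith [mul_nonneg ht (sq_nonneg R)]

end Pool.Agent.GR
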