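import Pool.Agent.Helper35.GR.Defs2
import Pool.Agent.Helper16.GR.InitData
import Pool.Agent.Helper36.GR.Barriers
import Pool.Agent.Helper34.GR.TorusEx
import Pool.Agent.Helper34.GR.Limit
import Pool.Agent.Helper91.GR.EdgeDecay
import Pool.Agent.Helper25.GrimReaperHigh

/-!
# Assembly: dynamical stability of the grim reaper in dimension `n ≥ 2` (MP_114a94_gt, P16)
-/

set_option autoImplicit false

open scoped ContDiff Topology NNReal
open Set Filter MeasureTheory

namespace Pool.Agent.GR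

open Pool.Agent.Helper25.GrimReaper

variable {n : ℕ}

lemma P16_cos {lam x : ℝ} (hl : 0 < lam) (hl1 : lam ≤ 1) (hx : |x| < Real.pi / 2) :
    lam * Real.log (Real.cos x) ≤ Real.log (Real.cos (lam * x)) := by
  have hx' := abs_lt.1 hx
  have hc : 0 < Real.cos x := Real.cos_pos_of_mem_Ioo ⟨by linarith [hx'.1], hx'.2⟩
  have h1 : lam * Real.cos x + (1 - lam) * 1 ≤ Real.cos (lam * x) := by
    have h2 := (strictConcaveOn_cos_Icc.concaveOn).2 (x := x) (y := 0)
      ⟨by linarith [hx'.1], hx'.2.le⟩ ⟨by linarith [Real.pi_pos], by linarith [Real.pi_pos]⟩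
      hl.le (sub_nonneg.2 hl1) (by ring)
    simpa using h2
  have h3 : Real.cos x ^ lam * (1 : ℝ) ^ (1 - lam) ≤ lam * Real.cos x + (1 - lam) * 1 :=
    Real.geom_mean_le_arith_mean2_weighted hl.le (sub_nonneg.2 hl1) hc.le zero_le_one (by ring)
  rw [Real.one_rpow, mul_one] at h3
  rw [← Real.log_rpow hc]
  exact Real.log_le_log (Real.rpow_pos_of_pos hc _) (h3.trans h1)

section
variable [NeZero n]

lemma P16_Vt_le {j : ℕ} {x : E n} (hx : x ∈ slab n) : Vt j x ≤ v₀ x := by
  unfold Vt v₀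
  have hc : 0 < Real.cos (x 0) := Real.cos_pos_of_mem_Ioo ⟨by linarith [hx.1], hx.2⟩
  have := Real.log_le_log hc (le_max_left (Real.cos (x 0)) (Real.exp (-(j : ℝ))))
  linarith

lemma P16_Vt_plateau {j : ℕ} {x : E n} (hx : Real.cos (x 0) ≤ 0) : Vt j x = j := by
  unfold Vt
  rw [max_eq_right (hx.trans (Real.exp_pos _).le), Real.log_exp, neg_neg]

lemma P16_cos_pos {lam a y : ℝ} (hl : 0 < lam) (hla : lam * a < Real.pi / 2) (hy : |y| ≤ a) :
    0 < Real.cos (lam * a) ∧ Real.cos (lam * a) ≤ Real.cos (lam * y) := by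
  have ha : 0 ≤ a := (abs_nonneg y).trans hy
  have h1 : |lam * y| ≤ lam * a := by
    rw [abs_mul, abs_of_pos hl]
    exact mul_le_mul_of_nonneg_left hy hl.le
  constructor
  · apply Real.cos_pos_of_mem_Ioo
    constructor
    · have : 0 ≤ lam * a := by positivity
      linarith [Real.pi_pos]
    · exact hla
  · rw [← Real.cos_abs (lam * y)]
    exact Real.cos_le_cos_of_nonneg_of_le_pi (abs_nonneg _) (by linarith [Real.pi_pos]) h1

lemma P16_Vt_ge {j : ℕ} {lam a : ℝ} (hl : 0 < lam) (hl1 : lam ≤ 1)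
    (hla : lam * a < Real.pi / 2) (ha : a < 3 * Real.pi / 2)
    (hj : -(1 / lam) * Real.log (Real.cos (lam * a)) ≤ j) {x : E n} (hx : |x 0| ≤ a) :
    -(1 / lam) * Real.log (Real.cos (lam * x 0)) ≤ Vt j x := by
  obtain ⟨h1, h2⟩ := P16_cos_pos hl hla hx
  have h3 : 0 < Real.cos (lam * x 0) := h1.trans_le h2
  have h4 : Real.log (Real.cos (lam * a)) ≤ Real.log (Real.cos (lam * x 0)) :=
    Real.log_le_log h1 h2
  unfold Vt
  have h5 : Real.log (max (Real.cos (x 0)) (Real.exp (-(j : ℝ))))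
      ≤ 1 / lam * Real.log (Real.cos (lam * x 0)) := by
    rcases le_total (Real.cos (x 0)) (Real.exp (-(j : ℝ))) with hle | hle
    · rw [max_eq_right hle, Real.log_exp]
      have : 1 / lam * Real.log (Real.cos (lam * a)) ≤ 1 / lam * Real.log (Real.cos (lam * x 0)) :=
        mul_le_mul_of_nonneg_left h4 (by positivity)
      linarith
    · rw [max_eq_left hle]
      have hc : 0 < Real.cos (x 0) := (Real.exp_pos _).trans_le hle
      have hlt : |x 0| < Real.pi / 2 := by
        by_contra hcon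
        push Not at hcon
        have : Real.cos (x 0) ≤ 0 := by
          rw [← Real.cos_abs]
          exact Real.cos_nonpos_of_pi_div_two_le_of_le hcon (by linarith)
        linarith
      have := P16_cos hl hl1 hlt
      rw [one_div, ← div_eq_inv_mul, le_div_iff₀ hl]
      linarith
  linarith

/-- Lower barrier for one periodic approximation. -/
lemma P16_lower {P S : ℝ} (hP : 0 < P) {u : ℝ → E n → ℝ} (hu : IsSolOn (Icc 0 S) univ u)
    (hp : ∀ t ∈ Icc 0 S, Per P (u t)) {i : Fin n} (hi : i ≠ 0) {B c ε lam a C₀ : ℝ} {j : ℕ}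
    (hB : 0 ≤ B) (hl : 0 < lam) (hl1 : lam ≤ 1)
    (ha1 : Real.pi / 2 < a) (ha2 : a < 3 * Real.pi / 2) (hla : lam * a < Real.pi / 2)
    (hC : ∀ x, (j : ℝ) - C₀ ≤ u 0 x ∨ 0 < Real.cos (x 0))
    (h0 : ∀ x, Vt j x - ε - Real.log (1 + B * Real.cosh (1 * (x i - c))) ≤ u 0 x)
    (hj : -(1 / lam) * Real.log (Real.cos (lam * a)) ≤ j)
    (hj2 : -(1 / lam) * Real.log (Real.cos (lam * a)) + S - ε
      ≤ (j : ℝ) - C₀ + Real.log (Real.cos (a - Real.pi)) - S) :
    ∀ t ∈ Icc 0 S, ∀ x : E n, |x 0| ≤ a →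
      -(1 / lam) * Real.log (Real.cos (lam * x 0)) + lam * t - ε
      - Real.log (1 + B * Real.cosh (1 * (x i - c)) * Real.exp (1 ^ 2 * t)) ≤ u t x := by
  have hplat : ∀ s : ℝ, (s = Real.pi ∨ s = -Real.pi) → ∀ t ∈ Icc 0 S, ∀ x : E n,
      |x 0 - s| < Real.pi / 2 → (j : ℝ) - C₀ + Real.log (Real.cos (x 0 - s)) - t ≤ u t x := by
    intro s hs
    apply plateau_barrier hP hu hp
    intro x hx
    rcases hC x with h | h
    · exact h
    · exfalso
      have hx' := abs_le.1 hx
      rcases hs with rfl | rfl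
      · have := Real.cos_nonpos_of_pi_div_two_le_of_le (x := x 0) (by linarith) (by linarith)
        linarith
      · have := Real.cos_nonpos_of_pi_div_two_le_of_le (x := -(x 0)) (by linarith) (by linarith)
        rw [Real.cos_neg] at this
        linarith
  refine lower_barrier hP hu hp hi hB one_pos hl hl1 (by linarith [Real.pi_pos]) hla ?_ ?_
  · intro x hx
    have := P16_Vt_ge hl hl1 hla ha2 hj hx
    linarith [h0 x]
  · intro t ht x hx
    have hS : lam * t ≤ S := by
      have h1 : lam * t ≤ 1 * t := mul_le_mul_of_nonneg_right hl1 ht.1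
      linarith [ht.2]
    rcases abs_eq (by linarith [Real.pi_pos] : (0 : ℝ) ≤ a) |>.1 hx with h | h
    · have h1 := hplat Real.pi (Or.inl rfl) t ht x (by
        rw [h, abs_lt]; constructor <;> linarith)
      rw [h] at h1
      linarith [ht.2]
    · have h1 := hplat (-Real.pi) (Or.inr rfl) t ht x (by
        rw [h, abs_lt]; constructor <;> linarith)
      rw [h] at h1
      have h2 : Real.cos (-a - -Real.pi) = Real.cos (a - Real.pi) := by
        rw [← Real.cos_neg]; congr 1; ring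
      rw [h2] at h1
      linarith [ht.2]

/-! ### One variable facts -/

lemma P16_lam_limit {y t D V : ℝ} (hy : |y| < Real.pi / 2)
    (h : ∀ lam ∈ Ioo (0 : ℝ) 1, -(1 / lam) * Real.log (Real.cos (lam * y)) + lam * t - D ≤ V) :
    -Real.log (Real.cos y) + t - D ≤ V := by
  have hy' := abs_lt.1 hy
  have hc : 0 < Real.cos y := Real.cos_pos_of_mem_Ioo ⟨by linarith [hy'.1], hy'.2⟩
  have hcont : ContinuousAt
      (fun lam : ℝ => -(1 / lam) * Real.log (Real.cos (lam * y)) + lam * t - D) 1 := by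
    have h1 : ContinuousAt (fun lam : ℝ => 1 / lam) 1 :=
      continuousAt_const.div continuousAt_id one_ne_zero
    have h2 : ContinuousAt (fun lam : ℝ => Real.log (Real.cos (lam * y))) 1 := by
      apply ContinuousAt.log
      · fun_prop
      · simpa using hc.ne'
    exact ((h1.neg.mul h2).add (continuousAt_id.mul continuousAt_const)).sub continuousAt_const
  have h3 : Tendsto (fun lam : ℝ => -(1 / lam) * Real.log (Real.cos (lam * y)) + lam * t - D)
      (𝓝[<] 1) (𝓝 (-Real.log (Real.cos y) + t - D)) := by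
    have := hcont.tendsto.mono_left (nhdsWithin_le_nhds (s := Iio 1))
    simpa using this
  refine le_of_tendsto h3 ?_
  filter_upwards [Ioo_mem_nhdsLT (show (0 : ℝ) < 1 by norm_num)] with lam hlam
  exact h lam hlam

lemma P16_cosh_ratio {A Q R y : ℝ} (hA : 0 ≤ A) (hyQ : y ≤ Q) :
    A / Real.cosh (Q - R) * Real.cosh (Q - y) ≤ 2 * A * Real.exp (R - y) := by
  have h1 : Real.exp (Q - R) / 2 ≤ Real.cosh (Q - R) := by
    rw [Real.cosh_eq]; linarith [Real.exp_pos (-(Q - R))]
  have h2 : Real.cosh (Q - y) ≤ Real.exp (Q - y) := by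
    rw [Real.cosh_eq]
    have : Real.exp (-(Q - y)) ≤ Real.exp (Q - y) := Real.exp_le_exp.2 (by linarith)
    linarith
  have h3 : 0 < Real.cosh (Q - R) := Real.cosh_pos _
  rw [div_mul_eq_mul_div, div_le_iff₀ h3]
  have h4 : Real.exp (Q - y) = Real.exp (R - y) * Real.exp (Q - R) := by
    rw [← Real.exp_add]; congr 1; ring
  calc A * Real.cosh (Q - y) ≤ A * Real.exp (Q - y) := mul_le_mul_of_nonneg_left h2 hA
    _ = 2 * A * Real.exp (R - y) * (Real.exp (Q - R) / 2) := by rw [h4]; ring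
    _ ≤ _ := mul_le_mul_of_nonneg_left h1 (by positivity)

lemma P16_cosh_far {A Q R y : ℝ} (hA : 0 ≤ A) (hQR : 0 ≤ Q - R) (hy : Q - R ≤ |y|) :
    A ≤ A / Real.cosh (Q - R) * Real.cosh y := by
  have h1 : Real.cosh (Q - R) ≤ Real.cosh y := by
    rw [Real.cosh_le_cosh, abs_of_nonneg hQR]; exact hy
  have h3 : 0 < Real.cosh (Q - R) := Real.cosh_pos _
  rw [div_mul_eq_mul_div, le_div_iff₀ h3]
  exact mul_le_mul_of_nonneg_left h1 hA

lemma P16_int_far {P R x : ℝ} {k : ℤ} {σ : ℝ} (hP : 0 < P) (hσ : σ = 1 ∨ σ = -1)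
    (h : |x - k * P| < R) : P / 2 - R ≤ |x - σ * (P / 2)| := by
  have h1 : P / 2 ≤ |(k : ℝ) * P - σ * (P / 2)| := by
    have h2 : (k : ℝ) * P - σ * (P / 2) = P / 2 * (2 * k - σ) := by ring
    rw [h2, abs_mul, abs_of_pos (by positivity : 0 < P / 2)]
    have h3 : 1 ≤ |2 * (k : ℝ) - σ| := by
      rcases hσ with rfl | rfl
      · have : (1 : ℤ) ≤ |2 * k - 1| := by
          rcases le_or_gt k 0 with hk | hk
          · rw [abs_of_nonpos (by omega)]; omega
          · rw [abs_of_nonneg (by omega)]; omega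
        exact_mod_cast this
      · have : (1 : ℤ) ≤ |2 * k - (-1)| := by
          rcases lt_or_ge k 0 with hk | hk
          · rw [abs_of_nonpos (by omega)]; omega
          · rw [abs_of_nonneg (by omega)]; omega
        exact_mod_cast this
    nlinarith
  have h4 : |(k : ℝ) * P - σ * (P / 2)| ≤ |x - σ * (P / 2)| + |x - k * P| := by
    have := abs_sub_le ((k : ℝ) * P) x (σ * (P / 2))
    rw [abs_sub_comm ((k : ℝ) * P) x] at this
    linarith
  linarith

lemma P16_exists_a {lam : ℝ} (hl : lam ∈ Ioo (0 : ℝ) 1) :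
    ∃ a : ℝ, Real.pi / 2 < a ∧ a < 3 * Real.pi / 2 ∧ lam * a < Real.pi / 2 := by
  have h1 : Real.pi / 2 < min (Real.pi / (2 * lam)) (3 * Real.pi / 2) := by
    apply lt_min
    · rw [lt_div_iff₀ (by linarith [hl.1])]
      nlinarith [Real.pi_pos, hl.2]
    · linarith [Real.pi_pos]
  obtain ⟨a, ha1, ha2⟩ := exists_between h1
  refine ⟨a, ha1, ha2.trans_le (min_le_right _ _), ?_⟩
  have h2 := ha2.trans_le (min_le_left _ _)
  rw [lt_div_iff₀ (by linarith [hl.1])] at h2
  linarith

theorem stays_asymptotic_solution (hn : 2 ≤ n) {u₀ : E n → ℝ}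
    (h : IsC0DecayPerturbation n u₀) :
    ∃ u : E n → ℝ → ℝ, IsGraphicalSolution (slab n) u ∧ (∀ x ∈ slab n, u x 0 = u₀ x) ∧
      StaysAsymptotic n u := by
  obtain ⟨C₀, P, f, hP, hPt, hfs, hfp, hA1, hA2, hA4, hA5⟩ := initial_data h
  have hC₀ : 0 ≤ C₀ := (abs_nonneg _).trans (hA1 0 0)
  choose u hu hu0 hup using fun j : ℕ =>
    exists_torus_solution (hP j) (hfs j) (hfp j) (T := (j : ℝ)) (Nat.cast_nonneg j)
  set i₁ : Fin n := ⟨1, by omega⟩ with hi₁
  have hi₁0 : i₁ ≠ 0 := by
    intro h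
    have := congrArg Fin.val h
    simp [hi₁] at this
  have hj0 : ∀ j : ℕ, (0 : ℝ) ∈ Icc (0 : ℝ) j := fun j => ⟨le_rfl, Nat.cast_nonneg j⟩
  -- upper bounds
  have hUp : ∀ (i : Fin n), i ≠ 0 → ∀ (B c ε : ℝ) (j : ℕ), 0 ≤ B →
      (∀ x, f j x ≤ Vt j x + ε + Real.log (1 + B * Real.cosh (1 * (x i - c)))) →
      ∀ t ∈ Icc (0 : ℝ) j, ∀ x ∈ slab n, u j t x ≤ v₀ x + t + ε +
        Real.log (1 + B * Real.cosh (1 * (x i - c)) * Real.exp (1 ^ 2 * t)) := by
    intro i hi B c ε j hB h0
    apply upper_barrier (hP j) (hu j) (hup j) hi hB one_pos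
    intro x hx
    rw [hu0]
    linarith [h0 x, P16_Vt_le (j := j) hx]
  -- lower bounds
  have hLow : ∀ (i : Fin n), i ≠ 0 → ∀ (B c : ℕ → ℝ) (ε : ℝ),
      (∀ᶠ j in atTop, 0 ≤ B j ∧
        ∀ x, Vt j x - ε - Real.log (1 + B j * Real.cosh (1 * (x i - c j))) ≤ f j x) →
      ∀ (lam a S : ℝ), lam ∈ Ioo (0 : ℝ) 1 → Real.pi / 2 < a → a < 3 * Real.pi / 2 →
      lam * a < Real.pi / 2 → ∀ᶠ j in atTop, ∀ t ∈ Icc 0 S, ∀ x : E n, |x 0| ≤ a →
      -(1 / lam) * Real.log (Real.cos (lam * x 0)) + lam * t - ε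
      - Real.log (1 + B j * Real.cosh (1 * (x i - c j)) * Real.exp (1 ^ 2 * t)) ≤ u j t x := by
    intro i hi B c ε hB lam a S hlam ha1 ha2 hla
    have e1 : ∀ᶠ j : ℕ in atTop, -(1 / lam) * Real.log (Real.cos (lam * a)) ≤ (j : ℝ) :=
      tendsto_natCast_atTop_atTop.eventually_ge_atTop _
    have e2 : ∀ᶠ j : ℕ in atTop, -(1 / lam) * Real.log (Real.cos (lam * a)) + S - ε + C₀
        - Real.log (Real.cos (a - Real.pi)) + S ≤ (j : ℝ) :=
      tendsto_natCast_atTop_atTop.eventually_ge_atTop _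
    have e3 : ∀ᶠ j : ℕ in atTop, S ≤ (j : ℝ) :=
      tendsto_natCast_atTop_atTop.eventually_ge_atTop _
    filter_upwards [hB, e1, e2, e3] with j hBj h1 h2 h3
    have hsub : Icc (0 : ℝ) S ⊆ Icc 0 (j : ℝ) := Icc_subset_Icc_right h3
    refine P16_lower (hP j) ((hu j).mono hsub le_rfl) (fun t ht => hup j t (hsub ht)) hi
      (C₀ := C₀) (j := j) hBj.1 hlam.1 hlam.2.le ha1 ha2 hla ?_ ?_ h1 (by linarith)
    · intro x
      rcases le_or_gt (Real.cos (x 0)) 0 with hc | hc
      · left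
        have := abs_le.1 (hA1 j x)
        rw [P16_Vt_plateau hc] at this
        rw [hu0]
        linarith [this.1]
      · exact Or.inr hc
    · intro x
      rw [hu0]
      exact hBj.2 x
  -- crude bounds
  have hCU : ∀ (j : ℕ), ∀ t ∈ Icc (0 : ℝ) j, ∀ x ∈ slab n, u j t x ≤ v₀ x + t + C₀ := by
    intro j t ht x hx
    have h1 := hUp i₁ hi₁0 0 0 C₀ j le_rfl (fun x => by
      have := (abs_le.1 (hA1 j x)).2
      simp only [zero_mul, add_zero, Real.log_one]
      linarith) t ht x hx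
    simpa using h1
  have hCL : ∀ (lam a S : ℝ), lam ∈ Ioo (0 : ℝ) 1 → Real.pi / 2 < a → a < 3 * Real.pi / 2 →
      lam * a < Real.pi / 2 → ∀ᶠ j in atTop, ∀ t ∈ Icc 0 S, ∀ x : E n, |x 0| ≤ a →
      -(1 / lam) * Real.log (Real.cos (lam * x 0)) + lam * t - C₀ ≤ u j t x := by
    intro lam a S hlam ha1 ha2 hla
    have h1 := hLow i₁ hi₁0 (fun _ => 0) (fun _ => 0) C₀ (Eventually.of_forall fun j =>
      ⟨le_rfl, fun x => by
        have := (abs_le.1 (hA1 j x)).1
        simp only [zero_mul, add_zero, Real.log_one]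
        linarith⟩) lam a S hlam ha1 ha2 hla
    filter_upwards [h1] with j hj t ht x hx
    have := hj t ht x hx
    simpa using this
  have hslab : ∀ x ∈ slab n, |x 0| < Real.pi / 2 := fun x hx => abs_lt.2 ⟨hx.1, hx.2⟩
  -- local bounds
  have hM : ∀ K ⊆ slab n, IsCompact K → ∀ S : ℝ, ∃ M : ℝ, ∀ᶠ j in atTop, ∀ t ∈ Icc 0 S,
      ∀ x ∈ K, |u j t x| ≤ M := by
    intro K hK hKc S
    obtain ⟨V, hV⟩ := hKc.exists_bound_of_continuousOn ((v₀_continuousOn n).mono hK)
    have hhalf : (1 / 2 : ℝ) ∈ Ioo (0 : ℝ) 1 := by constructor <;> norm_num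
    obtain ⟨a, ha1, ha2, hla⟩ := P16_exists_a hhalf
    refine ⟨V + |S| + C₀, ?_⟩
    have e3 : ∀ᶠ j : ℕ in atTop, S ≤ (j : ℝ) :=
      tendsto_natCast_atTop_atTop.eventually_ge_atTop _
    filter_upwards [hCL (1 / 2) a S hhalf ha1 ha2 hla, e3] with j hj hjS t ht x hx
    have h1 := hCU j t ⟨ht.1, ht.2.trans hjS⟩ x (hK hx)
    have h2 := hj t ht x (((hslab x (hK hx)).trans ha1).le)
    have h3 := hV x hx
    rw [Real.norm_eq_abs] at h3
    have h4 : Real.log (Real.cos (1 / 2 * x 0)) ≤ 0 :=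
      Real.log_nonpos (by
        exact (P16_cos_pos (lam := 1 / 2) (by norm_num) hla
          (((hslab x (hK hx)).trans ha1).le)).1.le.trans
          (P16_cos_pos (lam := 1 / 2) (by norm_num) hla
          (((hslab x (hK hx)).trans ha1).le)).2) (Real.cos_le_one _)
    have h5 := le_abs_self S
    have h6 := (abs_nonneg (v₀ x)).trans h3
    have h7 := abs_nonneg S
    rw [abs_le]
    constructor
    · have : -(1 / (1 / 2 : ℝ)) * Real.log (Real.cos (1 / 2 * x 0)) ≥ 0 := by
        norm_num at h4 ⊢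
        linarith
      have h8 := ht.1
      linarith
    · have := (abs_le.1 h3).2
      linarith [ht.2]
  have hL : ∀ K ⊆ slab n, IsCompact K → ∃ M : ℝ, ∀ᶠ j in atTop, ∀ x ∈ K,
      gradSq (u j 0) x ≤ M := by
    intro K hK hKc
    obtain ⟨M, hM⟩ := hA5 K hK hKc
    exact ⟨M, hM.mono fun j hj x hx => by rw [hu0]; exact hj x hx⟩
  obtain ⟨v, hv, hv0, 𝒰, h𝒰, hlim⟩ := limit_solution (isOpen_slab' n) u (fun j => (j : ℝ))
    tendsto_natCast_atTop_atTop hu hM hL u₀ (fun x hx => by
      simp only [hu0]; exact hA4 x hx)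
  refine ⟨v, hv, hv0, ?_⟩
  have hjt : ∀ t : ℝ, ∀ᶠ j : ℕ in atTop, t ≤ (j : ℝ) := fun t =>
    tendsto_natCast_atTop_atTop.eventually_ge_atTop _
  apply edge_decay hv
  · -- global bound
    intro T
    refine ⟨C₀, fun x hx t ht => ?_⟩
    have hl := hlim x hx t ht.1
    rw [abs_le]
    constructor
    · have h1 : -Real.log (Real.cos (x 0)) + t - C₀ ≤ v x t := by
        apply P16_lam_limit (hslab x hx)
        intro lam hlam
        obtain ⟨a, ha1, ha2, hla⟩ := P16_exists_a hlam
        refine ge_of_tendsto hl (h𝒰 ?_)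
        filter_upwards [hCL lam a t hlam ha1 ha2 hla] with j hj
        exact hj t ⟨ht.1, le_rfl⟩ x (((hslab x hx).trans ha1).le)
      have : v₀ x = -Real.log (Real.cos (x 0)) := rfl
      linarith
    · have h1 : v x t ≤ v₀ x + t + C₀ := by
        refine le_of_tendsto hl (h𝒰 ?_)
        filter_upwards [hjt t] with j hj
        exact hCU j t ⟨ht.1, hj⟩ x hx
      linarith
  · -- decay in the other directions
    intro T ε hε
    obtain ⟨R, hR⟩ := hA2 (ε / 2) (by positivity)
    set R₁ := max R 0 with hR₁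
    set A := Real.exp C₀ with hA
    have hApos : 0 < A := Real.exp_pos _
    have hT' : T ≤ |T| := le_abs_self T
    obtain ⟨R', hR'⟩ : ∃ R' : ℝ, 2 * A * Real.exp (R₁ - R') * Real.exp |T| ≤ ε / 2 := by
      have h1 : Tendsto (fun r : ℝ => 2 * A * Real.exp (R₁ - r) * Real.exp |T|) atTop (𝓝 0) := by
        have h2 : Tendsto (fun r : ℝ => Real.exp (R₁ - r)) atTop (𝓝 0) :=
          Real.tendsto_exp_atBot.comp (tendsto_atBot_add_const_left _ _ tendsto_neg_atTop_atBot)
        have h3 := (h2.const_mul (2 * A)).mul_const (Real.exp |T|)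
        simpa using h3
      exact (h1.eventually (ge_mem_nhds (by positivity : (0 : ℝ) < ε / 2))).exists
    refine ⟨R', fun x hx ⟨i, hi, hxi⟩ t ht => ?_⟩
    obtain ⟨σ, hσ, hσx⟩ : ∃ σ : ℝ, (σ = 1 ∨ σ = -1) ∧ x i = σ * |x i| := by
      rcases le_total 0 (x i) with h0 | h0
      · exact ⟨1, Or.inl rfl, by rw [abs_of_nonneg h0, one_mul]⟩
      · exact ⟨-1, Or.inr rfl, by rw [abs_of_nonpos h0]; ring⟩
    set B : ℕ → ℝ := fun j => A / Real.cosh (P j / 2 - R₁) with hB
    set c : ℕ → ℝ := fun j => σ * (P j / 2) with hc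
    have hBnn : ∀ j, 0 ≤ B j := fun j => by positivity
    have hPl : ∀ r : ℝ, ∀ᶠ j in atTop, r ≤ P j / 2 := fun r =>
      (hPt.atTop_div_const (by norm_num : (0 : ℝ) < 2)).eventually_ge_atTop r
    -- initial comparison
    have hinit : ∀ᶠ j in atTop, ∀ y : E n, |f j y - Vt j y| ≤
        ε / 2 + Real.log (1 + B j * Real.cosh (1 * (y i - c j))) := by
      filter_upwards [hR, hPl R₁] with j hj hPj y
      have hBc : 0 ≤ B j * Real.cosh (1 * (y i - c j)) := by
        have := hBnn j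
        have := Real.cosh_pos (1 * (y i - c j))
        positivity
      by_cases hk : ∀ k : ℤ, R ≤ |y i - k * P j|
      · have := hj y i hi hk
        have h2 : 0 ≤ Real.log (1 + B j * Real.cosh (1 * (y i - c j))) :=
          Real.log_nonneg (by linarith)
        linarith
      · push Not at hk
        obtain ⟨k, hk⟩ := hk
        have h1 : P j / 2 - R₁ ≤ |1 * (y i - c j)| := by
          rw [one_mul]
          exact P16_int_far (hP j) hσ (hk.trans_le (le_max_left _ _))
        have h2 := P16_cosh_far hApos.le (by linarith) h1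
        have h3 : C₀ ≤ Real.log (1 + B j * Real.cosh (1 * (y i - c j))) := by
          rw [Real.le_log_iff_exp_le (by linarith)]
          linarith
        have h4 := hA1 j y
        linarith
    -- size of the barrier at x
    have hsize : ∀ᶠ j in atTop, Real.log (1 + B j * Real.cosh (1 * (x i - c j)) *
        Real.exp (1 ^ 2 * t)) ≤ ε / 2 := by
      filter_upwards [hPl |x i|] with j hj
      have h1 : Real.cosh (1 * (x i - c j)) = Real.cosh (P j / 2 - |x i|) := by
        rw [one_mul]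
        simp only [hc]
        conv_lhs => rw [hσx]
        rcases hσ with rfl | rfl
        · rw [← Real.cosh_neg]; congr 1; ring
        · congr 1; ring
      have h2 := P16_cosh_ratio (A := A) (Q := P j / 2) (R := R₁) hApos.le hj
      rw [h1]
      have h3 : B j * Real.cosh (P j / 2 - |x i|) * Real.exp (1 ^ 2 * t) ≤ ε / 2 := by
        refine le_trans ?_ hR'
        have h4 : B j * Real.cosh (P j / 2 - |x i|) ≤ 2 * A * Real.exp (R₁ - R') := by
          refine h2.trans ?_
          gcongr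
        have h5 : Real.exp (1 ^ 2 * t) ≤ Real.exp |T| := by
          apply Real.exp_le_exp.2
          linarith [ht.2]
        exact mul_le_mul h4 h5 (Real.exp_pos _).le (by positivity)
      have h6 : 0 ≤ B j * Real.cosh (P j / 2 - |x i|) * Real.exp (1 ^ 2 * t) := by
        have := hBnn j
        have := Real.cosh_pos (P j / 2 - |x i|)
        positivity
      have := Real.log_le_sub_one_of_pos (show 0 < 1 + B j * Real.cosh (P j / 2 - |x i|) *
        Real.exp (1 ^ 2 * t) by linarith)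
      linarith
    have hl := hlim x hx t ht.1
    rw [abs_le]
    constructor
    · have h1 : -Real.log (Real.cos (x 0)) + t - ε ≤ v x t := by
        apply P16_lam_limit (hslab x hx)
        intro lam hlam
        obtain ⟨a, ha1, ha2, hla⟩ := P16_exists_a hlam
        refine ge_of_tendsto hl (h𝒰 ?_)
        have hL1 := hLow i hi B c (ε / 2) (by
          filter_upwards [hinit] with j hj
          exact ⟨hBnn j, fun y => by have := (abs_le.1 (hj y)).1; linarith⟩) lam a t hlam ha1 ha2 hla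
        filter_upwards [hL1, hsize] with j hj hs
        have := hj t ⟨ht.1, le_rfl⟩ x (((hslab x hx).trans ha1).le)
        linarith
      have : v₀ x = -Real.log (Real.cos (x 0)) := rfl
      linarith
    · have h1 : v x t ≤ v₀ x + t + ε := by
        refine le_of_tendsto hl (h𝒰 ?_)
        filter_upwards [hjt t, hinit, hsize] with j hj hi0 hs
        have := hUp i hi (B j) (c j) (ε / 2) j (hBnn j)
          (fun y => by have := (abs_le.1 (hi0 y)).2; linarith) t ⟨ht.1, hj⟩ x hx
        linarith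
      linarith
  · -- the initial value
    constructor
    · intro x hx
      obtain ⟨K, s, hs, hL⟩ := h.1 hx
      refine ⟨K, s ∩ slab n, Filter.inter_mem hs self_mem_nhdsWithin, ?_⟩
      intro y hy z hz
      simp only [hv0 y hy.2, hv0 z hz.2]
      exact hL hy.1 hz.1
    · intro ε hε
      obtain ⟨K, hK, hKs, hKb⟩ := h.2 ε hε
      refine ⟨K, hK, hKs, fun x hx hxK => ?_⟩
      change |v x 0 - v₀ x| < ε
      rw [hv0 x hx]
      exact hKb x hx hxK

/-- The final theorem. -/
theorem dynamicallyStable_of_two_le (hn : 2 ≤ n) : DynamicallyStable n := by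
  intro u₀ h
  obtain ⟨u, h1, h2, h3⟩ := stays_asymptotic_solution hn h
  exact ⟨u, h1, h2, converges_of_staysAsymptotic hn h1 h3⟩

end

end Pool.Agent.GR
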