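import Pool.Agent.Helper25.GrimReaperHigh

/-!
# Basic definitions for the existence theory of graphical mean curvature flow (MP_114a94_gt)

`E n = EuclideanSpace ℝ (Fin n)`.  Partial derivatives `pd i f`, iterated partial derivatives
`Dw w f` along a word `w : List (Fin n)`, the operator `Fop` (mean curvature operator in
coordinates), the notion of a smooth solution `IsSolOn I Ω u` and periodicity `Per P f`.
-/

set_option autoImplicit false

open scoped ContDiff Topology
open Set Filter MeasureTheory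

namespace Pool.Agent.GR

open Pool.Agent.Helper25.GrimReaper

variable {n : ℕ}

/-- `i`-th unit vector. -/
noncomputable abbrev ee (i : Fin n) : E n := EuclideanSpace.single i (1 : ℝ)

/-- `i`-th partial derivative of `f`. -/
noncomputable def pd (i : Fin n) (f : E n → ℝ) (x : E n) : ℝ := fderiv ℝ f x (ee i)

/-- Iterated partial derivative along a word: `Dw (i :: w) f = pd i (Dw w f)`. -/
noncomputable def Dw : List (Fin n) → (E n → ℝ) → E n → ℝ
  | [], f => f
  | i :: w, f => pd i (Dw w f)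

/-- `|Df|²`. -/
noncomputable def gradSq (f : E n → ℝ) (x : E n) : ℝ := ∑ i, (pd i f x) ^ 2

/-- The graphical mean curvature operator in coordinates,
`F(f) = Δf - (1+|Df|²)⁻¹ f_i f_j f_ij`. -/
noncomputable def Fop (f : E n → ℝ) (x : E n) : ℝ :=
  (∑ i, pd i (pd i f) x)
    - (1 + gradSq f x)⁻¹ * ∑ i, ∑ j, pd i f x * pd j f x * pd i (pd j f) x

/-- `|D^k f|² = ∑_{|w|=k} (D_w f)²`. -/
noncomputable def Sk (k : ℕ) (f : E n → ℝ) (x : E n) : ℝ :=
  ∑ v : Fin k → Fin n, (Dw (List.ofFn v) f x) ^ 2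

/-- Periodicity with period `P` in every coordinate. -/
def Per (P : ℝ) (f : E n → ℝ) : Prop := ∀ (i : Fin n) (x : E n), f (x + P • ee i) = f x

/-- Smooth solutions of graphical mean curvature flow on `I × Ω`, formulated by space jets:
`u t` is smooth on `Ω` for all `t ∈ I`, all space derivatives are jointly continuous, and
`∂ₜ D_w u = D_w F(u)` (derivative within `I`). -/
structure IsSolOn (I : Set ℝ) (Ω : Set (E n)) (u : ℝ → E n → ℝ) : Prop where
  smooth : ∀ t ∈ I, ContDiffOn ℝ ∞ (u t) Ω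
  cont : ∀ w : List (Fin n), ContinuousOn (fun p : ℝ × E n => Dw w (u p.1) p.2) (I ×ˢ Ω)
  deriv : ∀ w : List (Fin n), ∀ t ∈ I, ∀ x ∈ Ω,
    HasDerivWithinAt (fun s => Dw w (u s) x) (Dw w (Fop (u t)) x) I t

/-! ### Basic API -/

@[simp] lemma Dw_nil (f : E n → ℝ) : Dw [] f = f := rfl
@[simp] lemma Dw_cons (i : Fin n) (w : List (Fin n)) (f : E n → ℝ) :
    Dw (i :: w) f = pd i (Dw w f) := rfl

lemma Dw_append (w w' : List (Fin n)) (f : E n → ℝ) : Dw (w ++ w') f = Dw w (Dw w' f) := by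
  induction w with
  | nil => rfl
  | cons i w ih => simp [ih]

lemma Dw_concat (w : List (Fin n)) (i : Fin n) (f : E n → ℝ) :
    Dw (w ++ [i]) f = Dw w (pd i f) := Dw_append w [i] f

/-- Locality. -/
lemma pd_eventuallyEq {f g : E n → ℝ} {x : E n} (h : f =ᶠ[𝓝 x] g) (i : Fin n) :
    pd i f =ᶠ[𝓝 x] pd i g := by
  filter_upwards [h.fderiv (𝕜 := ℝ)] with y hy
  unfold pd; rw [hy]

lemma Dw_eventuallyEq {f g : E n → ℝ} {x : E n} (h : f =ᶠ[𝓝 x] g) (w : List (Fin n)) :
    Dw w f =ᶠ[𝓝 x] Dw w g := by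
  induction w with
  | nil => exact h
  | cons i w ih => exact pd_eventuallyEq ih i

lemma pd_congr_on {Ω : Set (E n)} (hΩ : IsOpen Ω) {f g : E n → ℝ} (h : EqOn f g Ω) (i : Fin n) :
    EqOn (pd i f) (pd i g) Ω := fun x hx => by
  have : f =ᶠ[𝓝 x] g := by filter_upwards [hΩ.mem_nhds hx] with y hy using h hy
  exact (pd_eventuallyEq this i).eq_of_nhds

lemma Dw_congr_on {Ω : Set (E n)} (hΩ : IsOpen Ω) {f g : E n → ℝ} (h : EqOn f g Ω)
    (w : List (Fin n)) : EqOn (Dw w f) (Dw w g) Ω := by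
  induction w with
  | nil => exact h
  | cons i w ih => exact pd_congr_on hΩ ih i

/-- Smoothness of partial derivatives. -/
lemma contDiffAt_pd {m : ℕ} {f : E n → ℝ} {x : E n} (hf : ContDiffAt ℝ (m + 1 : ℕ) f x)
    (i : Fin n) : ContDiffAt ℝ m (pd i f) x := by
  have h1 : ContDiffAt ℝ m (fderiv ℝ f) x := hf.fderiv_right (m := (m : ℕ∞)) (by norm_cast)
  exact h1.clm_apply contDiffAt_const

lemma contDiffAt_pd_infty {f : E n → ℝ} {x : E n} (hf : ContDiffAt ℝ ∞ f x) (i : Fin n) :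
    ContDiffAt ℝ ∞ (pd i f) x := by
  have h1 : ContDiffAt ℝ ∞ (fderiv ℝ f) x := hf.fderiv_right (m := ∞) (by simp)
  exact h1.clm_apply contDiffAt_const

lemma contDiffAt_Dw {f : E n → ℝ} {x : E n} (hf : ContDiffAt ℝ ∞ f x) (w : List (Fin n)) :
    ContDiffAt ℝ ∞ (Dw w f) x := by
  induction w with
  | nil => exact hf
  | cons i w ih => exact contDiffAt_pd_infty ih i

lemma contDiff_pd {f : E n → ℝ} (hf : ContDiff ℝ ∞ f) (i : Fin n) : ContDiff ℝ ∞ (pd i f) :=
  contDiff_iff_contDiffAt.2 fun _ => contDiffAt_pd_infty hf.contDiffAt i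

lemma contDiff_Dw {f : E n → ℝ} (hf : ContDiff ℝ ∞ f) (w : List (Fin n)) :
    ContDiff ℝ ∞ (Dw w f) :=
  contDiff_iff_contDiffAt.2 fun _ => contDiffAt_Dw hf.contDiffAt w

lemma contDiffOn_Dw {Ω : Set (E n)} (hΩ : IsOpen Ω) {f : E n → ℝ} (hf : ContDiffOn ℝ ∞ f Ω)
    (w : List (Fin n)) : ContDiffOn ℝ ∞ (Dw w f) Ω := fun _ hx =>
  (contDiffAt_Dw (hf.contDiffAt (hΩ.mem_nhds hx)) w).contDiffWithinAt

/-- The derivative in terms of partial derivatives. -/
lemma fderiv_apply_eq_sum (f : E n → ℝ) (x w : E n) :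
    fderiv ℝ f x w = ∑ i, w i * pd i f x := (sum_basis (fderiv ℝ f x) w).symm

lemma gradient_apply (f : E n → ℝ) (x : E n) (i : Fin n) : gradient f x i = pd i f x := by
  rw [gradient_eq]; exact riesz_coord _ _

lemma norm_gradient_sq (f : E n → ℝ) (x : E n) : ‖gradient f x‖ ^ 2 = gradSq f x := by
  rw [← sq_sum_eq]
  unfold gradSq
  exact Finset.sum_congr rfl fun i _ => by rw [gradient_apply, sq]

lemma gradSq_nonneg (f : E n → ℝ) (x : E n) : 0 ≤ gradSq f x :=
  Finset.sum_nonneg fun _ _ => sq_nonneg _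

lemma hess_basis {f : E n → ℝ} {x : E n} (hf : ContDiffAt ℝ 2 f x) (i j : Fin n) :
    hess f x (ee i) (ee j) = pd i (pd j f) x := by
  have h1 := (hasFDerivAt_fderiv hf).clm_apply (hasFDerivAt_const (ee j) x)
  have h2 : HasFDerivAt (pd j f) (((hess f x).flip) (ee j)) x := by
    refine h1.congr_fderiv ?_
    ext w; simp
  unfold pd
  rw [show (fun x => (fderiv ℝ f x) (ee j)) = pd j f from rfl, h2.fderiv]
  rfl

/-- Symmetry of second derivatives. -/
lemma pd_comm {f : E n → ℝ} {x : E n} (hf : ContDiffAt ℝ 2 f x) (i j : Fin n) :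
    pd i (pd j f) x = pd j (pd i f) x := by
  rw [← hess_basis hf, ← hess_basis hf]
  have h := hf.isSymmSndFDerivAt (by simp)
  exact h (ee i) (ee j)

lemma pd_comm_infty {f : E n → ℝ} {x : E n} (hf : ContDiffAt ℝ ∞ f x) (i j : Fin n) :
    pd i (pd j f) x = pd j (pd i f) x := pd_comm (hf.of_le (by norm_cast)) i j

lemma Dw_perm_on {Ω : Set (E n)} (hΩ : IsOpen Ω) {f : E n → ℝ} (hf : ContDiffOn ℝ ∞ f Ω)
    {w w' : List (Fin n)} (h : w.Perm w') : EqOn (Dw w f) (Dw w' f) Ω := by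
  induction h with
  | nil => exact fun _ _ => rfl
  | cons i _ ih => exact pd_congr_on hΩ ih i
  | swap i j w =>
    intro x hx
    exact pd_comm_infty (contDiffAt_Dw (hf.contDiffAt (hΩ.mem_nhds hx)) w) j i
  | trans _ _ ih1 ih2 => exact ih1.trans ih2

lemma Dw_perm {f : E n → ℝ} (hf : ContDiff ℝ ∞ f) {w w' : List (Fin n)} (h : w.Perm w') :
    Dw w f = Dw w' f :=
  funext fun x => Dw_perm_on isOpen_univ hf.contDiffOn h (mem_univ x)

/-! Algebraic rules. -/

lemma pd_const (i : Fin n) (c : ℝ) (x : E n) : pd i (fun _ => c) x = 0 := by simp [pd]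

lemma pd_add {f g : E n → ℝ} {x : E n} (hf : DifferentiableAt ℝ f x) (hg : DifferentiableAt ℝ g x)
    (i : Fin n) : pd i (fun y => f y + g y) x = pd i f x + pd i g x := by
  unfold pd; rw [fderiv_fun_add hf hg]; rfl

lemma pd_sub {f g : E n → ℝ} {x : E n} (hf : DifferentiableAt ℝ f x) (hg : DifferentiableAt ℝ g x)
    (i : Fin n) : pd i (fun y => f y - g y) x = pd i f x - pd i g x := by
  unfold pd; rw [fderiv_fun_sub hf hg]; rfl

lemma pd_neg (f : E n → ℝ) (x : E n) (i : Fin n) : pd i (fun y => -f y) x = -pd i f x := by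
  unfold pd; rw [fderiv_fun_neg]; rfl

lemma pd_mul {f g : E n → ℝ} {x : E n} (hf : DifferentiableAt ℝ f x) (hg : DifferentiableAt ℝ g x)
    (i : Fin n) : pd i (fun y => f y * g y) x = f x * pd i g x + g x * pd i f x := by
  unfold pd; rw [fderiv_fun_mul hf hg]; simp

lemma pd_const_mul {f : E n → ℝ} {x : E n} (hf : DifferentiableAt ℝ f x) (c : ℝ)
    (i : Fin n) : pd i (fun y => c * f y) x = c * pd i f x := by
  unfold pd; rw [fderiv_const_mul hf]; simp

lemma pd_sum {ι : Type*} {s : Finset ι} {f : ι → E n → ℝ} {x : E n}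
    (hf : ∀ a ∈ s, DifferentiableAt ℝ (f a) x) (i : Fin n) :
    pd i (fun y => ∑ a ∈ s, f a y) x = ∑ a ∈ s, pd i (f a) x := by
  unfold pd; rw [fderiv_fun_sum hf]; simp

lemma Dw_neg (w : List (Fin n)) (f : E n → ℝ) : Dw w (fun y => -f y) = fun y => -Dw w f y := by
  induction w with
  | nil => rfl
  | cons i w ih => funext x; rw [Dw_cons, ih, pd_neg]; rfl

lemma Dw_add {f g : E n → ℝ} (hf : ContDiff ℝ ∞ f) (hg : ContDiff ℝ ∞ g) (w : List (Fin n)) :
    Dw w (fun y => f y + g y) = fun y => Dw w f y + Dw w g y := by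
  induction w with
  | nil => rfl
  | cons i w ih =>
    funext x
    rw [Dw_cons, ih, pd_add ((contDiff_Dw hf w).differentiable (by simp) x)
      ((contDiff_Dw hg w).differentiable (by simp) x)]
    rfl

lemma Dw_const_mul {f : E n → ℝ} (hf : ContDiff ℝ ∞ f) (c : ℝ) (w : List (Fin n)) :
    Dw w (fun y => c * f y) = fun y => c * Dw w f y := by
  induction w with
  | nil => rfl
  | cons i w ih =>
    funext x
    rw [Dw_cons, ih, pd_const_mul ((contDiff_Dw hf w).differentiable (by simp) x)]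
    rfl

/-- `Fop` is the mean curvature operator. -/
lemma mcfOperator_eq_Fop {f : E n → ℝ} {x : E n} (hf : ContDiffAt ℝ 2 f x) :
    mcfOperator f x = Fop f x := by
  rw [mcf_formula hf, norm_gradient_sq]
  unfold Fop
  congr 1
  · exact Finset.sum_congr rfl fun i _ => hess_basis hf i i
  · congr 1
    have h1 := sum_basis ((hess f x).flip (gradient f x)) (gradient f x)
    simp only [ContinuousLinearMap.flip_apply] at h1
    rw [← h1]
    refine Finset.sum_congr rfl fun i _ => ?_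
    have h2 := sum_basis (hess f x (EuclideanSpace.single i (1 : ℝ))) (gradient f x)
    rw [← h2, Finset.mul_sum]
    refine Finset.sum_congr rfl fun j _ => ?_
    rw [gradient_apply, gradient_apply, ← hess_basis hf i j]
    ring

lemma Fop_neg (f : E n → ℝ) : Fop (fun y => -f y) = fun y => -Fop f y := by
  have h1 : ∀ i, pd i (fun y => -f y) = fun y => -pd i f y := fun i => funext fun x => pd_neg f x i
  have h2 : ∀ i j, pd i (pd j (fun y => -f y)) = fun y => -pd i (pd j f) y := fun i j => by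
    rw [h1]; exact funext fun x => pd_neg _ x i
  funext x
  unfold Fop gradSq
  simp only [h2]
  simp only [h1, neg_sq, Finset.sum_neg_distrib, mul_neg, neg_mul, neg_neg]
  ring

/-! Periodicity. -/

lemma Per.pd {P : ℝ} {f : E n → ℝ} (h : Per P f) (i : Fin n) : Per P (pd i f) := by
  intro j x
  have h1 : (fun y => f (y + P • ee j)) = f := funext fun y => h j y
  have h2 : fderiv ℝ (fun y => f (y + P • ee j)) x = fderiv ℝ f (x + P • ee j) :=
    fderiv_comp_add_right (f := f) (x := x) (P • ee j)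
  unfold GR.pd
  rw [← h2, h1]

lemma Per.Dw {P : ℝ} {f : E n → ℝ} (h : Per P f) (w : List (Fin n)) : Per P (Dw w f) := by
  induction w with
  | nil => exact h
  | cons i w ih => exact ih.pd i

lemma Per.Fop {P : ℝ} {f : E n → ℝ} (h : Per P f) : Per P (Fop f) := by
  intro j x
  unfold GR.Fop gradSq
  have h1 : ∀ i, GR.pd i f (x + P • ee j) = GR.pd i f x := fun i => h.pd i j x
  have h2 : ∀ i k, GR.pd i (GR.pd k f) (x + P • ee j) = GR.pd i (GR.pd k f) x :=
    fun i k => (h.pd k).pd i j x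
  simp only [h1, h2]

/-! Operations on solutions. -/

lemma IsSolOn.mono {I J : Set ℝ} {Ω Ω' : Set (E n)} {u : ℝ → E n → ℝ} (h : IsSolOn I Ω u)
    (hJ : J ⊆ I) (hΩ : Ω' ⊆ Ω) : IsSolOn J Ω' u where
  smooth t ht := (h.smooth t (hJ ht)).mono hΩ
  cont w := (h.cont w).mono (prod_mono hJ hΩ)
  deriv w t ht x hx := (h.deriv w t (hJ ht) x (hΩ hx)).mono hJ

lemma IsSolOn.neg {I : Set ℝ} {Ω : Set (E n)} {u : ℝ → E n → ℝ} (h : IsSolOn I Ω u) :
    IsSolOn I Ω (fun t x => -u t x) where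
  smooth t ht := (h.smooth t ht).neg
  cont w := by
    simp only [Dw_neg]
    exact (h.cont w).neg
  deriv w t ht x hx := by
    simp only [Dw_neg, Fop_neg]
    exact (h.deriv w t ht x hx).neg

/-- Time shift. -/
lemma IsSolOn.shift {T τ : ℝ} (_hτ : 0 ≤ τ) {Ω : Set (E n)} {u : ℝ → E n → ℝ}
    (h : IsSolOn (Icc τ T) Ω u) : IsSolOn (Icc 0 (T - τ)) Ω (fun t => u (t + τ)) where
  smooth t ht := h.smooth (t + τ) ⟨by linarith [ht.1], by linarith [ht.2]⟩
  cont w := by
    have h1 : Continuous (fun p : ℝ × E n => ((p.1 + τ, p.2) : ℝ × E n)) := by fun_prop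
    exact (h.cont w).comp h1.continuousOn
      (fun p hp => ⟨⟨by linarith [hp.1.1], by linarith [hp.1.2]⟩, hp.2⟩)
  deriv w t ht x hx := by
    have h1 := h.deriv w (t + τ) ⟨by linarith [ht.1], by linarith [ht.2]⟩ x hx
    have h2 : HasDerivWithinAt (fun s : ℝ => s + τ) 1 (Icc 0 (T - τ)) t :=
      ((hasDerivAt_id t).add_const τ).hasDerivWithinAt
    have h4 : MapsTo (fun s : ℝ => s + τ) (Icc 0 (T - τ)) (Icc τ T) :=
      fun s hs => ⟨by linarith [hs.1], by linarith [hs.2]⟩
    have h3 := h1.scomp t h2 h4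
    rw [one_smul] at h3
    exact h3

end Pool.Agent.GR
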