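import Pool.Agent.Helper35.GR.Defs

/-!
# Further definitions for the existence theory (MP_114a94_gt)

Period integral `Iper`, energies `En`, mollifiers, jets and differential polynomials `DP`,
approximate solutions `IsApprox`.
-/

set_option autoImplicit false

open scoped ContDiff Topology NNReal
open Set Filter MeasureTheory

namespace Pool.Agent.GR

open Pool.Agent.Helper25.GrimReaper

variable {n : ℕ}

/-- The integral over a period cell `[0,P)ⁿ`. -/
noncomputable def Iper (P : ℝ) (h : E n → ℝ) : ℝ :=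
  ∫ x in {x : E n | ∀ i, x i ∈ Ico 0 P}, h x

/-- The energy `∑_{|w| ≤ s} ∫ (D_w f)²` over a period cell. -/
noncomputable def En (P : ℝ) (s : ℕ) (f : E n → ℝ) : ℝ :=
  ∑ k ∈ Finset.range (s + 1), Iper P (Sk k f)

/-- Mollifier kernels of radius `ε`. -/
structure Mollifier (n : ℕ) (ε : ℝ) where
  φ : E n → ℝ
  smooth : ContDiff ℝ ∞ φ
  nonneg : ∀ x, 0 ≤ φ x
  supp : ∀ x, ε ≤ ‖x‖ → φ x = 0
  even : ∀ x, φ (-x) = φ x
  int : ∫ x, φ x = 1

/-- Mollification `(J f)(x) = ∫ φ(y) f(x-y) dy`. -/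
noncomputable def Mollifier.J {ε : ℝ} (m : Mollifier n ε) (f : E n → ℝ) (x : E n) : ℝ :=
  ∫ y, m.φ y * f (x - y)

/-- Jets: all the numbers `D_w f (x)`. -/
abbrev Jet (n : ℕ) : Type := List (Fin n) → ℝ

/-- The jet of `f` at `x`. -/
noncomputable def jet (f : E n → ℝ) (x : E n) : Jet n := fun w => Dw w f x

/-- `DP q m f`: `f` is a differential polynomial (function of the jet `J`), homogeneous of
weight `q`, where the jet variable `J w` has weight `|w| - 1` (only words with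
`1 ≤ |w| - 1 ≤ m` occur), and smooth functions of the first order jet `(J [i])_i` have
weight `0`. -/
inductive DP : ℕ → ℕ → (Jet n → ℝ) → Prop
  | zero {q m : ℕ} : DP q m (fun _ => 0)
  | base {m : ℕ} (φ : (Fin n → ℝ) → ℝ) (hφ : ContDiff ℝ ∞ φ) :
      DP 0 m (fun J => φ (fun i => J [i]))
  | var {m k : ℕ} (w : List (Fin n)) (hw : w.length = k + 1) (h1 : 1 ≤ k) (hm : k ≤ m) :
      DP k m (fun J => J w)
  | add {q m : ℕ} {f g : Jet n → ℝ} : DP q m f → DP q m g → DP q m (fun J => f J + g J)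
  | mul {q q' m : ℕ} {f g : Jet n → ℝ} : DP q m f → DP q' m g →
      DP (q + q') m (fun J => f J * g J)

/-- `∑_{a ≤ |w| ≤ b} |J w|`. -/
noncomputable def Nab (a b : ℕ) (J : Jet n) : ℝ :=
  ∑ k ∈ Finset.Icc a b, ∑ v : Fin k → Fin n, |J (List.ofFn v)|

/-- The coefficients `gⁱʲ = δᵢⱼ - uᵢuⱼ/(1+|Du|²)`. -/
noncomputable def gco (f : E n → ℝ) (x : E n) (i j : Fin n) : ℝ :=
  (if i = j then 1 else 0) - (1 + gradSq f x)⁻¹ * (pd i f x * pd j f x)

/-- `U` solves the regularised flow `U_t = J F(J U)`, `U(0) = f`, on `[0,T]`. -/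
structure IsApprox {ε : ℝ} (m : Mollifier n ε) (P T : ℝ) (f : E n → ℝ) (U : ℝ → E n → ℝ) :
    Prop where
  init : U 0 = f
  smooth : ∀ t ∈ Icc 0 T, ContDiff ℝ ∞ (U t)
  per : ∀ t ∈ Icc 0 T, Per P (U t)
  cont : ∀ w : List (Fin n),
    ContinuousOn (fun p : ℝ × E n => Dw w (U p.1) p.2) (Icc 0 T ×ˢ univ)
  contJ : ∀ w : List (Fin n),
    ContinuousOn (fun p : ℝ × E n => Dw w (m.J (Fop (m.J (U p.1)))) p.2) (Icc 0 T ×ˢ univ)
  deriv : ∀ w : List (Fin n), ∀ t ∈ Icc 0 T, ∀ x,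
    HasDerivWithinAt (fun s => Dw w (U s) x) (Dw w (m.J (Fop (m.J (U t)))) x) (Icc 0 T) t

/-- Truncated grim reaper `-log max(cos x₁, e^{-j})`, `2π`-periodic in `x₁`, values in
`[0,j]`. -/
noncomputable def Vt [NeZero n] (j : ℕ) (x : E n) : ℝ :=
  -Real.log (max (Real.cos (x 0)) (Real.exp (-(j : ℝ))))

end Pool.Agent.GR
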