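import Pool.Agent.Helper35.GR.HessJet
import Pool.Agent.Helper35.GR.LCut

/-!
# Interior `C²` estimate for graphical mean curvature flow (MP_114a94_gt, P8)
-/

set_option autoImplicit false

open scoped ContDiff Topology
open Set Filter MeasureTheory

namespace Pool.Agent.GR

open Pool.Agent.Helper25.GrimReaper

variable {n : ℕ}

/-! ### Polarisation -/

lemma P8_lin_zero {B C : ℝ} (h : ∀ s : ℝ, 2 * s * B + s ^ 2 * C ≤ 0) : B = 0 := by
  have h1 := h (B / (1 + |C|))
  have hpos : 0 < 1 + |C| := by positivity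
  have h2 : 2 * (B / (1 + |C|)) * B + (B / (1 + |C|)) ^ 2 * C
      = B ^ 2 * (2 * (1 + |C|) + C) / (1 + |C|) ^ 2 := by
    field_simp
  rw [h2] at h1
  have h3 : 0 < 2 * (1 + |C|) + C := by linarith [neg_abs_le C, abs_nonneg C]
  have h4 : B ^ 2 * (2 * (1 + |C|) + C) ≤ 0 := by
    by_contra hcon
    push Not at hcon
    have : 0 < B ^ 2 * (2 * (1 + |C|) + C) / (1 + |C|) ^ 2 := by positivity
    linarith
  have h5 : B ^ 2 ≤ 0 := by
    by_contra hcon
    push Not at hcon
    have : 0 < B ^ 2 * (2 * (1 + |C|) + C) := by positivity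
    linarith
  exact pow_eq_zero_iff (two_ne_zero) |>.1 (le_antisymm h5 (sq_nonneg B))

/-- the algebra at the maximum point -/
lemma P8_alg {eta K sig kap w s nu pq G1 G2 G3 tr lη pz zq zHz zz gτq gdNq gηdN gzq gzz lf : ℝ}
    (heta : 0 < eta) (hsig : 0 < sig) (hs : 0 < s) (hw : w = s⁻¹) (hkap : kap = K * sig / eta)
    (hpz : pz = kap * nu * s) (hzq : zq = kap ^ 2 * nu * s + kap * nu * pq)
    (hzz : zz = kap ^ 2 * (1 + nu ^ 2 * s)) (hzHz : zHz = kap * (zz + nu * zq))
    (hgzq : gzq = zq - w * (pz * pq)) (hgzz : gzz = zz - w * (pz * pz))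
    (hgdNq : eta * gdNq = -kap * G1 - 2 * K * G2)
    (hgηdN : eta * gηdN = -kap * G3 - 2 * K * G1)
    (hgτq : gτq = gdNq + 2 * w * pz * gzq)
    (hlf : lf = (eta * (-2 * w * gτq - 2 * w * zHz + 8 * w ^ 2 * pz * zq
        - 6 * w ^ 3 * pz ^ 2 * pq) + kap * lη - 2 * gηdN)
        - K * (sig * (-2 * w * gzz) + 1 * (4 * w * G2 + 2 * tr) - 2 * 0)) :
    eta * lf = kap * eta * (2 * w * G1 + lη) + 2 * kap * G3 + 4 * K * G1 - 2 * K * eta * tr := by
  have hK : K * sig = kap * eta := by rw [hkap]; field_simp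
  have hws : w * s = 1 := by rw [hw]; field_simp
  have h1 : gzq = kap ^ 2 * nu * s := by
    rw [hgzq, hpz, hzq]
    linear_combination (-kap * nu * pq) * hws
  have h2 : gzz = kap ^ 2 := by
    rw [hgzz, hzz, hpz]
    linear_combination (-kap ^ 2 * nu ^ 2 * s) * hws
  have h3 : zHz = kap ^ 3 * (1 + 2 * nu ^ 2 * s) + kap ^ 2 * nu ^ 2 * pq := by
    rw [hzHz, hzz, hzq]; ring
  rw [hlf, hgτq, h1, h2, h3, hzq, hpz]
  have e1 : w * s * s = s := by rw [hws]; ring
  have e2 : w ^ 2 * s ^ 2 = 1 := by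
    calc w ^ 2 * s ^ 2 = (w * s) ^ 2 := by ring
      _ = 1 := by rw [hws]; ring
  have e3 : w ^ 2 * s = w := by
    calc w ^ 2 * s = w * (w * s) := by ring
      _ = w := by rw [hws]; ring
  have e4 : w ^ 3 * s ^ 2 = w := by
    calc w ^ 3 * s ^ 2 = w * (w * s) ^ 2 := by ring
      _ = w := by rw [hws]; ring
  have expand : eta * ((eta * (-2 * w * (gdNq + 2 * w * (kap * nu * s) * (kap ^ 2 * nu * s))
        - 2 * w * (kap ^ 3 * (1 + 2 * nu ^ 2 * s) + kap ^ 2 * nu ^ 2 * pq)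
        + 8 * w ^ 2 * (kap * nu * s) * (kap ^ 2 * nu * s + kap * nu * pq)
        - 6 * w ^ 3 * (kap * nu * s) ^ 2 * pq) + kap * lη - 2 * gηdN)
        - K * (sig * (-2 * w * kap ^ 2) + 1 * (4 * w * G2 + 2 * tr) - 2 * 0))
      = eta * (-2 * w * (eta * gdNq) + kap * lη - 4 * K * w * G2 - 2 * K * tr)
        - 2 * (eta * gηdN)
        + eta ^ 2 * (-4 * kap ^ 3 * nu ^ 2 * (w ^ 2 * s ^ 2) - 2 * w * kap ^ 3
          - 4 * kap ^ 3 * nu ^ 2 * (w * s) - 2 * w * kap ^ 2 * nu ^ 2 * pq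
          + 8 * kap ^ 3 * nu ^ 2 * (w ^ 2 * s ^ 2) + 8 * kap ^ 2 * nu ^ 2 * pq * (w ^ 2 * s)
          - 6 * kap ^ 2 * nu ^ 2 * pq * (w ^ 3 * s ^ 2))
        + 2 * eta * w * kap ^ 2 * (K * sig) := by
    ring
  rw [expand, hgdNq, hgηdN, e2, hws, e3, e4, hK]
  ring

/-- the final bound -/
lemma P8_bound {eta K sig kap w s G1 G2 G3 tr lη c C1 D T R : ℝ}
    (heta : 0 < eta) (hsig : 1 ≤ sig) (hsigc : sig ≤ c) (hs : 1 ≤ s) (hsc : s ≤ c)
    (hw : w = s⁻¹) (hkap : kap = K * sig / eta) (hK : 0 < K)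
    (hG : G1 ^ 2 ≤ G3 * G2) (hG2 : 0 ≤ G2) (hG3 : 0 ≤ G3)
    (htr1 : kap ^ 2 ≤ tr) (htr2 : G2 ≤ s * tr) (hG3' : G3 ≤ D * eta) (hlη : lη ≤ C1)
    (heT : eta ≤ T * R ^ 4)
    (hlf : 0 ≤ kap * eta * (2 * w * G1 + lη) + 2 * kap * G3 + 4 * K * G1 - 2 * K * eta * tr) :
    K ^ 2 ≤ T * R ^ 4 * (C1 + 9 * c ^ 2 * D + 2 * D) := by
  have hsig0 : 0 < sig := by linarith
  have hs0 : 0 < s := by linarith
  have hw0 : 0 < w := by rw [hw]; positivity
  have hws : w * s = 1 := by rw [hw]; field_simp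
  have hw1 : w ≤ 1 := by rw [hw]; exact inv_le_one_of_one_le₀ hs
  have hkap0 : 0 < kap := by rw [hkap]; positivity
  have hKk : K = kap * eta / sig := by rw [hkap]; field_simp
  have hc0 : 0 < c := by linarith
  have hD : 0 ≤ D := by
    by_contra hcon
    push Not at hcon
    nlinarith
  -- divide by kap
  have h1 : 2 * (eta / sig) * tr ≤ lη + (2 * w + 4 / sig) * G1 + 2 * G3 / eta := by
    have h2 : kap * eta * (2 * w * G1 + lη) + 2 * kap * G3 + 4 * K * G1 - 2 * K * eta * tr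
        = kap * eta * (lη + (2 * w + 4 / sig) * G1 + 2 * G3 / eta - 2 * (eta / sig) * tr) := by
      rw [hKk]; field_simp; ring
    rw [h2] at hlf
    have h3 : 0 < kap * eta := by positivity
    have := nonneg_of_mul_nonneg_right hlf h3
    linarith
  -- absorb
  set A := eta * w / sig * G2 with hA
  set B := 9 * sig * G3 / (eta * w) with hB
  have hA0 : 0 ≤ A := by positivity
  have hB0 : 0 ≤ B := by positivity
  have hAB : A * B = 9 * (G3 * G2) := by rw [hA, hB]; field_simp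
  have h6 : |6 * G1| ≤ A + B := by
    apply abs_le_of_sq_le_sq _ (by positivity)
    nlinarith [sq_nonneg (A - B)]
  have h7 : (2 * w + 4 / sig) * G1 ≤ A + B := by
    have h8 : 2 * w + 4 / sig ≤ 6 := by
      have : 4 / sig ≤ 4 := by rw [div_le_iff₀ hsig0]; linarith
      linarith
    have h9 : 0 ≤ 2 * w + 4 / sig := by positivity
    calc (2 * w + 4 / sig) * G1 ≤ (2 * w + 4 / sig) * |G1| :=
          mul_le_mul_of_nonneg_left (le_abs_self _) h9
      _ ≤ 6 * |G1| := mul_le_mul_of_nonneg_right h8 (abs_nonneg _)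
      _ = |6 * G1| := by rw [abs_mul]; norm_num
      _ ≤ A + B := h6
  have h10 : A ≤ eta / sig * tr := by
    have : w * G2 ≤ tr := by
      calc w * G2 ≤ w * (s * tr) := mul_le_mul_of_nonneg_left htr2 hw0.le
        _ = tr := by rw [← mul_assoc, hws, one_mul]
    calc A = eta / sig * (w * G2) := by rw [hA]; ring
      _ ≤ eta / sig * tr := mul_le_mul_of_nonneg_left this (by positivity)
  have h11 : B ≤ 9 * c ^ 2 * D := by
    have e : B = 9 * sig * s * (G3 / eta) := by
      rw [hB, hw]; field_simp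
    rw [e]
    have h12 : G3 / eta ≤ D := by rw [div_le_iff₀ heta]; exact hG3'
    have h13 : 9 * sig * s ≤ 9 * c ^ 2 := by nlinarith
    calc 9 * sig * s * (G3 / eta) ≤ 9 * c ^ 2 * (G3 / eta) :=
          mul_le_mul_of_nonneg_right h13 (by positivity)
      _ ≤ 9 * c ^ 2 * D := mul_le_mul_of_nonneg_left h12 (by positivity)
  have h14 : 2 * G3 / eta ≤ 2 * D := by rw [div_le_iff₀ heta]; linarith
  have h15 : eta / sig * kap ^ 2 ≤ C1 + 9 * c ^ 2 * D + 2 * D := by
    have : eta / sig * kap ^ 2 ≤ eta / sig * tr :=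
      mul_le_mul_of_nonneg_left htr1 (by positivity)
    linarith
  have h16 : K ^ 2 = eta / sig * (eta / sig * kap ^ 2) := by rw [hKk]; field_simp
  rw [h16]
  have h17 : eta / sig ≤ T * R ^ 4 := by
    rw [div_le_iff₀ hsig0]
    have : 0 ≤ T * R ^ 4 := le_trans heta.le heT
    nlinarith
  have h18 : 0 ≤ eta / sig * kap ^ 2 := by positivity
  exact mul_le_mul h17 h15 h18 (le_trans heta.le heT)

/-! ### The quadratic forms -/

/-- `|v|² + ⟨Du, v⟩²` -/
noncomputable def gq (f : E n → ℝ) (x v : E n) : ℝ := ‖v‖ ^ 2 + (inner ℝ (gradient f x) v) ^ 2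

lemma gq_smul (f : E n → ℝ) (x v : E n) (c : ℝ) : gq f x (c • v) = c ^ 2 * gq f x v := by
  unfold gq
  rw [norm_smul, inner_smul_right, mul_pow, Real.norm_eq_abs, sq_abs]; ring

lemma gq_nonneg (f : E n → ℝ) (x v : E n) : 0 ≤ gq f x v := by unfold gq; positivity

lemma norm_sq_le_gq (f : E n → ℝ) (x v : E n) : ‖v‖ ^ 2 ≤ gq f x v := by
  unfold gq; linarith [sq_nonneg (inner ℝ (gradient f x) v)]

lemma gq_le (f : E n → ℝ) (x v : E n) : gq f x v ≤ (1 + gradSq f x) * ‖v‖ ^ 2 := by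
  unfold gq
  rw [← norm_gradient_sq]
  have := abs_real_inner_le_norm (gradient f x) v
  have h : (inner ℝ (gradient f x) v) ^ 2 ≤ (‖gradient f x‖ * ‖v‖) ^ 2 := by
    rw [← sq_abs]
    exact pow_le_pow_left₀ (abs_nonneg _) this 2
  nlinarith

/-- The pointwise consequence of the maximum principle. -/
lemma P8_at_max {T' : ℝ} {u : ℝ → E n → ℝ} (hu : IsSolOn (Icc 0 T') univ u) {R : ℝ} (hR : 0 < R)
    {x₀ : E n} {M₁ : ℝ} {t : ℝ} (ht : t ∈ Ioc 0 T') {x v : E n} {c K : ℝ}
    (hc : c = 2 * (1 + M₁)) (hM₁ : 0 ≤ M₁)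
    (hx : x ∈ Metric.ball x₀ R) (hK : 0 < K)
    (hgrad : ∀ s ∈ Icc 0 T', ∀ y ∈ Metric.closedBall x₀ R, gradSq (u s) y ≤ M₁)
    (hcut : 0 < cut R x₀ t x) (hg : gq (u t) x v = 1)
    (heq : cut R x₀ t x * hess (u t) x v v = K * ((c - 1 - gradSq (u t) x) * 1))
    (hle : ∀ s ∈ Icc 0 T', ∀ y ∈ Metric.closedBall x₀ R, ∀ ζ : E n,
      cut R x₀ s y * hess (u s) y ζ ζ ≤ K * ((c - 1 - gradSq (u s) y) * gq (u s) y ζ)) :
    K ^ 2 ≤ T' * R ^ 4 * ((R ^ 4 + 4 * n * T' * R ^ 2) + 9 * c ^ 2 * (16 * T' * R ^ 2)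
      + 2 * (16 * T' * R ^ 2)) := by
  have htI : t ∈ Icc 0 T' := ⟨ht.1.le, ht.2⟩
  have hxc : x ∈ Metric.closedBall x₀ R := Metric.ball_subset_closedBall hx
  have hf := hu.contDiff htI
  set p := gradient (u t) x with hp
  set w := (1 + ‖p‖ ^ 2)⁻¹ with hw
  set z := Hv (u t) x v with hz
  set q := Hv (u t) x p with hq
  set τ := Hv (dd v (u t)) x v with hτ
  set η := cut R x₀ t x with hη
  have hs' : ‖p‖ ^ 2 = gradSq (u t) x := norm_gradient_sq _ _
  set s := 1 + ‖p‖ ^ 2 with hsdef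
  set σ := c - 1 - gradSq (u t) x with hσ
  have hσs : σ = c - s := by rw [hσ, hsdef, hs']; ring
  have hsM : s ≤ 1 + M₁ := by rw [hsdef, hs']; linarith [hgrad t htI x hxc]
  have hs1 : 1 ≤ s := by rw [hsdef]; linarith [sq_nonneg ‖p‖]
  have hσ1 : 1 ≤ σ := by rw [hσs, hc]; linarith
  have hσc : σ ≤ c := by rw [hσs]; linarith
  have hsc : s ≤ c := by rw [hc]; linarith
  set ν := inner ℝ p v with hν
  have hgv : ‖v‖ ^ 2 + ν ^ 2 = 1 := hg
  -- first order condition in the direction variable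
  have hζ : ∀ ζ : E n, η * hess (u t) x v ζ = K * σ * (inner ℝ v ζ + ν * inner ℝ p ζ) := by
    intro ζ
    have h1 := P8_lin_zero (B := η * hess (u t) x v ζ - K * σ * (inner ℝ v ζ + ν * inner ℝ p ζ))
      (C := η * hess (u t) x ζ ζ - K * σ * gq (u t) x ζ) ?_
    · linarith
    · intro r
      have h2 := hle t htI x hxc (v + r • ζ)
      have h3 : hess (u t) x (v + r • ζ) (v + r • ζ) = hess (u t) x v v
          + 2 * r * hess (u t) x v ζ + r ^ 2 * hess (u t) x ζ ζ := by
        simp only [map_add, map_smul, add_apply, smul_apply, smul_eq_mul]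
        rw [hess_symm (hf.contDiffAt.of_le (by norm_cast)) ζ v]
        ring
      have h4 : gq (u t) x (v + r • ζ) = 1 + 2 * r * (inner ℝ v ζ + ν * inner ℝ p ζ)
          + r ^ 2 * gq (u t) x ζ := by
        unfold gq
        rw [← hgv, inner_add_right, inner_smul_right, norm_add_sq_real, inner_smul_right,
          norm_smul, mul_pow, Real.norm_eq_abs, sq_abs]
        ring
      rw [h3, h4] at h2
      nlinarith
  set κ := K * σ / η with hκ
  have hη0 : η ≠ 0 := hcut.ne'
  have hzv : z = κ • (v + ν • p) := by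
    apply ext_inner_right ℝ
    intro ζ
    rw [hz, inner_Hv, inner_smul_left, inner_add_left, inner_smul_left]
    have := hζ ζ
    simp only [RCLike.conj_to_real]
    rw [hκ]
    field_simp
    linarith
  -- scalar products
  have hνν : inner ℝ v v = 1 - ν ^ 2 := by rw [real_inner_self_eq_norm_sq]; linarith
  have hpp : inner ℝ p p = s - 1 := by rw [real_inner_self_eq_norm_sq, hsdef]; ring
  have hvp : inner ℝ v p = ν := by rw [hν, real_inner_comm]
  have hpz : inner ℝ p z = κ * ν * s := by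
    rw [hzv, inner_smul_right, inner_add_right, inner_smul_right, hpp, ← hν]; ring
  have hvq : inner ℝ v q = κ * ν * s := by
    rw [hq, inner_Hv_symm hf, ← hz, hpz]
  have hzq : inner ℝ z q = κ ^ 2 * ν * s + κ * ν * inner ℝ p q := by
    conv_lhs => rw [hzv]
    rw [inner_smul_left, inner_add_left, inner_smul_left, hvq]
    simp only [RCLike.conj_to_real]; ring
  have hzz : inner ℝ z z = κ ^ 2 * (1 + ν ^ 2 * s) := by
    rw [hzv]
    simp only [inner_smul_left, inner_smul_right, inner_add_left, inner_add_right,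
      RCLike.conj_to_real, hνν, hpp, hvp, ← hν]
    ring
  have hHz : Hv (u t) x z = κ • (z + ν • q) := by
    conv_lhs => rw [hzv]
    rw [Hv_smul, Hv_add, Hv_smul]
  have hzHz : inner ℝ z (Hv (u t) x z) = κ * (inner ℝ z z + ν * inner ℝ z q) := by
    rw [hHz, inner_smul_right, inner_add_right, inner_smul_right]
  -- the jets
  obtain ⟨dη, lη, hJη, hdη, hlη, -⟩ := LJet_cut (p := p) (I := Icc 0 T') x₀ hR ht.1.le hxc
  have hJN := LJet_N hu htI hp hw hz hq hτ
  have hJg := LJet_g hu htI hp hw hz hq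
  have hJσ := (LJet.const (p := p) (I := Icc 0 T') (t := t) (x := x) (c - 1)).sub
    (LJet_gradSq (x := x) hu htI)
  have hJ := (hJη.mul hJN).sub ((hJσ.mul hJg).const_mul K)
  -- maximality of the comparison function
  set α : E n → ℝ := fun y => -w * inner ℝ z (y - x) with hα
  have hval : ∀ r ∈ Icc 0 T', ∀ y : E n,
      (cut R x₀ r y * (dd v (dd v (u r)) y + 2 * ((-w * inner ℝ z (y - x)) * dd p (dd v (u r)) y)
        + ((-w * inner ℝ z (y - x)) * (-w * inner ℝ z (y - x))) * dd p (dd p (u r)) y)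
        - K * ((c - 1 - gradSq (u r) y) * (‖v‖ ^ 2 + (2 * inner ℝ p v) * (-w * inner ℝ z (y - x))
        + ‖p‖ ^ 2 * ((-w * inner ℝ z (y - x)) * (-w * inner ℝ z (y - x)))
        + (dd v (u r) y + (-w * inner ℝ z (y - x)) * dd p (u r) y)
          * (dd v (u r) y + (-w * inner ℝ z (y - x)) * dd p (u r) y))))
      = cut R x₀ r y * hess (u r) y (v + α y • p) (v + α y • p)
        - K * ((c - 1 - gradSq (u r) y) * gq (u r) y (v + α y • p)) := by
    intro r hr y
    have hfr := hu.contDiff hr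
    have e1 : hess (u r) y (v + α y • p) (v + α y • p) = dd v (dd v (u r)) y
        + 2 * (α y * dd p (dd v (u r)) y) + (α y * α y) * dd p (dd p (u r)) y := by
      rw [dd_dd_eq_hess hfr, dd_dd_eq_hess hfr, dd_dd_eq_hess hfr]
      simp only [map_add, map_smul, add_apply, smul_apply, smul_eq_mul]
      rw [hess_symm (hfr.contDiffAt.of_le (by norm_cast)) p v]
      ring
    have e2 : gq (u r) y (v + α y • p) = ‖v‖ ^ 2 + (2 * inner ℝ p v) * α y
        + ‖p‖ ^ 2 * (α y * α y) + (dd v (u r) y + α y * dd p (u r) y)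
          * (dd v (u r) y + α y * dd p (u r) y) := by
      unfold gq dd
      rw [inner_add_right, inner_smul_right, inner_gradient, inner_gradient, norm_add_sq_real,
        inner_smul_right, norm_smul, mul_pow, Real.norm_eq_abs, sq_abs, real_inner_comm v p]
      ring
    rw [e1, e2]
  have hzero : cut R x₀ t x * hess (u t) x (v + α x • p) (v + α x • p)
        - K * ((c - 1 - gradSq (u t) x) * gq (u t) x (v + α x • p)) = 0 := by
    have : α x = 0 := by simp [hα]
    rw [this, zero_smul, add_zero, hg, heq]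
    ring
  have hnonpos : ∀ r ∈ Icc 0 T', ∀ y ∈ Metric.closedBall x₀ R,
      cut R x₀ r y * hess (u r) y (v + α y • p) (v + α y • p)
        - K * ((c - 1 - gradSq (u r) y) * gq (u r) y (v + α y • p)) ≤ 0 := by
    intro r hr y hy
    linarith [hle r hr y hy (v + α y • p)]
  have hmax := LJet.max ht hJ (by
      filter_upwards [Metric.isOpen_ball.mem_nhds hx] with y hy
      rw [hval t htI y, hval t htI x, hzero]
      exact hnonpos t htI y (Metric.ball_subset_closedBall hy)) (by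
      intro r hr
      have hr' : r ∈ Icc 0 T' := ⟨hr.1, hr.2.trans ht.2⟩
      rw [hval r hr' x, hval t htI x, hzero]
      exact hnonpos r hr' x hxc)
  obtain ⟨hd0, hl0⟩ := hmax
  have hαx : -w * inner ℝ z (x - x) = 0 := by simp
  have eN : dd v (dd v (u t)) x = κ := by
    rw [dd_dd_eq_hess hf, hκ]
    field_simp
    linarith [heq]
  have eg : ‖v‖ ^ 2 + dd v (u t) x * dd v (u t) x = 1 := by
    have : dd v (u t) x = ν := by unfold dd; rw [hν, hp, inner_gradient]
    rw [this]; linarith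
  simp only [hαx, mul_zero, zero_mul, add_zero, eN, eg, ← hη, ← hp, ← hq, ← hσ] at hd0 hl0
  set dN := τ - (2 * w * inner ℝ z p) • z with hdN
  set tr := ∑ k, gip p (Hv (u t) x (ee k)) (Hv (u t) x (ee k)) with htr
  have hd1 : η • dN = -κ • dη - (2 * K) • q := by
    have h1 : η • dN + κ • dη + (2 * K) • q = 0 := by
      rw [← hd0]
      module
    rw [← sub_eq_zero, ← h1]
    module
  have hw' : (1 + gradSq (u t) x)⁻¹ = w := by rw [hw, hsdef, hs']
  rw [hw'] at hl0
  have hgdNq : η * gip p dN q = -κ * gip p dη q - 2 * K * gip p q q := by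
    rw [← gip_smul_left, hd1, sub_eq_add_neg, ← neg_smul, gip_add_left, gip_smul_left,
      gip_smul_left]
    ring
  have hgηdN : η * gip p dη dN = -κ * gip p dη dη - 2 * K * gip p dη q := by
    rw [← gip_smul_right, hd1, sub_eq_add_neg, ← neg_smul, gip_add_right, gip_smul_right,
      gip_smul_right]
    ring
  have hgτq : gip p τ q = gip p dN q + 2 * w * inner ℝ p z * gip p z q := by
    have : τ = dN + (2 * w * inner ℝ z p) • z := by rw [hdN]; module
    conv_lhs => rw [this]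
    rw [gip_add_left, gip_smul_left, real_inner_comm p z]
  have key := P8_alg (eta := η) (K := K) (sig := σ) (kap := κ) (w := w) (s := s) (nu := ν)
    (pq := inner ℝ p q) (G1 := gip p dη q) (G2 := gip p q q) (G3 := gip p dη dη) (tr := tr)
    (lη := lη) (pz := inner ℝ p z) (zq := inner ℝ z q) (zHz := inner ℝ z (Hv (u t) x z))
    (zz := inner ℝ z z) (gτq := gip p τ q) (gdNq := gip p dN q) (gηdN := gip p dη dN)
    (gzq := gip p z q) (gzz := gip p z z) hcut (by linarith) (by linarith) hw hκ hpz hzq hzz hzHz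
    rfl rfl hgdNq hgηdN hgτq rfl
  have hl1 : 0 ≤ κ * η * (2 * w * gip p dη q + lη) + 2 * κ * gip p dη dη + 4 * K * gip p dη q
      - 2 * K * η * tr := by
    rw [← key]
    refine mul_nonneg hcut.le (hl0.trans (le_of_eq ?_))
    rw [gip_zero_right]
    ring
  have htr0 : 0 ≤ tr := Finset.sum_nonneg fun k _ => gip_self_nonneg _ _
  have hgzz : gip p z z = κ ^ 2 := by
    have : gip p z z = inner ℝ z z - w * (inner ℝ p z * inner ℝ p z) := rfl
    rw [this, hzz, hpz]
    have hws : w * s = 1 := by rw [hw]; field_simp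
    linear_combination (-κ ^ 2 * ν ^ 2 * s) * hws
  have htr1 : κ ^ 2 ≤ tr := by
    rw [← hgzz, hz]
    refine (gip_Hv_le (u t) x p v).trans ?_
    have : ‖v‖ ^ 2 ≤ 1 := by nlinarith [sq_nonneg ν]
    calc ‖v‖ ^ 2 * tr ≤ 1 * tr := mul_le_mul_of_nonneg_right this htr0
      _ = tr := one_mul _
  have htr2 : gip p q q ≤ s * tr := by
    rw [hq]
    refine (gip_Hv_le (u t) x p p).trans ?_
    exact mul_le_mul_of_nonneg_right (by rw [hsdef]; linarith) htr0
  have hT0 : 0 ≤ T' := ht.1.le.trans ht.2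
  have hG3' : gip p dη dη ≤ 16 * T' * R ^ 2 * η := by
    refine (gip_self_le _ _).trans (hdη.trans ?_)
    have : 16 * t * R ^ 2 ≤ 16 * T' * R ^ 2 := by nlinarith [ht.2, sq_nonneg R]
    exact mul_le_mul_of_nonneg_right this hcut.le
  have hlη' : lη ≤ R ^ 4 + 4 * n * T' * R ^ 2 := by
    refine hlη.trans ?_
    have hn : (0 : ℝ) ≤ n := Nat.cast_nonneg n
    have : (n : ℝ) * t * R ^ 2 ≤ n * T' * R ^ 2 := by
      have := ht.2
      gcongr
    linarith
  have := P8_bound (eta := η) (K := K) (sig := σ) (kap := κ) (w := w) (s := s)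
    (G1 := gip p dη q) (G2 := gip p q q) (G3 := gip p dη dη) (tr := tr) (lη := lη) (c := c)
    (C1 := R ^ 4 + 4 * n * T' * R ^ 2) (D := 16 * T' * R ^ 2) (T := T') (R := R)
    hcut hσ1 hσc hs1 hsc hw hκ hK (gip_sq_le _ _ _) (gip_self_nonneg _ _) (gip_self_nonneg _ _)
    htr1 htr2 hG3' hlη' (cut_le hR ht.1.le ht.2 hxc) hl1
  exact this

end Pool.Agent.GR
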