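import Pool.Agent.Helper35.GR.LCalc2

/-!
# The jet of the second fundamental form along a parallel direction (MP_114a94_gt, P8)
-/

set_option autoImplicit false

open scoped ContDiff Topology
open Set Filter MeasureTheory

namespace Pool.Agent.GR

open Pool.Agent.Helper25.GrimReaper

variable {n : ℕ}

lemma inner_Hv_symm {f : E n → ℝ} (hf : ContDiff ℝ ∞ f) (x a b : E n) :
    inner ℝ a (Hv f x b) = inner ℝ b (Hv f x a) := by
  rw [real_inner_comm, inner_Hv, hess_symm (hf.contDiffAt.of_le (by norm_cast)), ← inner_Hv,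
    real_inner_comm]

lemma dd_dd_eq_hess {f : E n → ℝ} (hf : ContDiff ℝ ∞ f) (a b y : E n) :
    dd a (dd b f) y = hess f y b a := by
  unfold dd
  have := fderiv_dd hf b
  unfold dd at this
  rw [this]

lemma hasDerivAt_Hv_line {f : E n → ℝ} (hf : ContDiff ℝ ∞ f) (y v : E n) {p : ℝ → E n}
    {p' : E n} (hp : HasDerivAt p p' 0) :
    HasDerivAt (fun s : ℝ => Hv f (y + s • v) (p s))
      (Hv (dd v f) y (p 0) + Hv f y p') 0 := by
  have h1 := (hasDerivAt_hess_line hf y v).clm_apply hp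
  have h2 := (riesz n).hasFDerivAt.comp_hasDerivAt (0 : ℝ) h1
  refine h2.congr_deriv ?_
  simp only [map_add, zero_smul, add_zero]
  rfl

/-- second derivative of `F(f)` in the direction `v`. -/
lemma dd_dd_Fop {f : E n → ℝ} (hf : ContDiff ℝ ∞ f) (v y : E n) {p z q τ K : E n} {w : ℝ}
    (hp : p = gradient f y) (hw : w = (1 + ‖p‖ ^ 2)⁻¹) (hz : z = Hv f y v) (hq : q = Hv f y p)
    (hτ : τ = Hv (dd v f) y v) (hK : K = Hv (dd v f) y p) :
    dd v (dd v (Fop f)) y = trA p (hess (dd v (dd v f)) y)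
      + (-4 * w * gip p z K - 2 * w * gip p τ q - 2 * w * inner ℝ z (Hv f y z)
        + 8 * w ^ 2 * inner ℝ p z * inner ℝ z q - 8 * w ^ 3 * inner ℝ p z ^ 2 * inner ℝ p q
        + 2 * w ^ 2 * inner ℝ z z * inner ℝ p q) := by
  have hFs := contDiff_dd (contDiff_Fop hf) v
  have h1 := hasDerivAt_line_of_contDiff (hFs.differentiable (by simp) y) v
  have h2 : (fun s : ℝ => dd v (Fop f) (y + s • v))
      = fun s : ℝ => trA (gradient f (y + s • v)) (hess (dd v f) (y + s • v))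
        - 2 * (1 + ‖gradient f (y + s • v)‖ ^ 2)⁻¹ *
        (inner ℝ (Hv f (y + s • v) v) (Hv f (y + s • v) (gradient f (y + s • v)))
          - (1 + ‖gradient f (y + s • v)‖ ^ 2)⁻¹ *
          (inner ℝ (gradient f (y + s • v)) (Hv f (y + s • v) v) *
            inner ℝ (gradient f (y + s • v)) (Hv f (y + s • v) (gradient f (y + s • v))))) := by
    funext s
    rw [dd_Fop hf]
    rfl
  rw [h2] at h1
  have dp := hasDerivAt_gradient_line hf y v
  have dz := hasDerivAt_Hv_line hf y v (hasDerivAt_const (0 : ℝ) v)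
  have dq := hasDerivAt_Hv_line hf y v dp
  have dtr := hasDerivAt_trA dp (hasDerivAt_hess_line (contDiff_dd hf v) y v)
    (fun a b => hess_symm ((contDiff_dd hf v).contDiffAt.of_le (by norm_cast)) a b)
  have dw := hasDerivAt_w dp
  have dzq := dz.inner ℝ dq
  have dpz := dp.inner ℝ dz
  have dpq := dp.inner ℝ dq
  have h3 := dtr.sub ((dw.const_mul 2).mul (dzq.sub (dw.mul (dpz.mul dpq))))
  have h4 := h1.unique h3
  simp only [Pi.sub_apply, Pi.mul_apply, zero_smul, add_zero, ← hp, ← hz, ← hq, ← hw] at h4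
  have hHv0 : Hv f y (0 : E n) = 0 := by simp [Hv]
  have hd : ∀ a : E n, hess (dd v f) y a p = inner ℝ a K := by
    intro a
    rw [hK, real_inner_comm, inner_Hv, hess_symm ((contDiff_dd hf v).contDiffAt.of_le (by norm_cast))]
  change fderiv ℝ (dd v (Fop f)) y v = _
  rw [h4]
  simp only [← hτ, ← hK, hHv0, add_zero, inner_add_right, hd]
  have e1 : inner ℝ p (Hv f y z) = inner ℝ z q := by rw [hq, inner_Hv_symm hf]
  unfold gip
  rw [← hw, e1]
  ring

section
variable {I : Set ℝ} {u : ℝ → E n → ℝ} {t : ℝ} {x : E n}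

lemma dd_dd_eq_sum {f : E n → ℝ} (hf : ContDiff ℝ ∞ f) (a b y : E n) :
    dd a (dd b f) y = ∑ i, ∑ j, a i * b j * pd i (pd j f) y := by
  rw [dd_eq_sum]
  refine Finset.sum_congr rfl fun i _ => ?_
  have h1 : dd b f = fun y => ∑ j, b j * pd j f y := funext fun y => dd_eq_sum b f y
  have h2 : ∀ j ∈ (Finset.univ : Finset (Fin n)),
      DifferentiableAt ℝ (fun y => b j * pd j f y) y := fun j _ =>
    (((contDiff_pd hf j).differentiable (by simp)) y).const_mul _
  rw [h1, pd_sum h2, Finset.mul_sum]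
  refine Finset.sum_congr rfl fun j _ => ?_
  rw [pd_const_mul (((contDiff_pd hf j).differentiable (by simp)) y)]
  ring

lemma IsSolOn.hasDeriv_dd_dd (hu : IsSolOn I univ u) (ht : t ∈ I) (a b x : E n) :
    HasDerivWithinAt (fun s => dd a (dd b (u s)) x) (dd a (dd b (Fop (u t))) x) I t := by
  rw [dd_dd_eq_sum (contDiff_Fop (hu.contDiff ht))]
  have h1 : HasDerivWithinAt (fun s => ∑ i, ∑ j, a i * b j * pd i (pd j (u s)) x)
      (∑ i, ∑ j, a i * b j * pd i (pd j (Fop (u t))) x) I t := by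
    refine HasDerivWithinAt.fun_sum fun i _ => HasDerivWithinAt.fun_sum fun j _ => ?_
    exact (hu.deriv [i, j] t ht x (mem_univ x)).const_mul _
  refine h1.congr_of_mem (fun s hs => ?_) ht
  exact dd_dd_eq_sum (hu.contDiff hs) a b x

lemma LJet_dd_dd (hu : IsSolOn I univ u) (ht : t ∈ I) (a b : E n) :
    ∃ l : ℝ, LJet (gradient (u t) x) I t x (fun s y => dd a (dd b (u s)) y)
      (Hv (dd b (u t)) x a) l :=
  ⟨_, (contDiff_dd (contDiff_dd (hu.contDiff ht) b) a).contDiffAt.of_le (by norm_cast),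
    gradient_dd (contDiff_dd (hu.contDiff ht) b) a x, _, hu.hasDeriv_dd_dd ht a b x, rfl⟩

lemma LJet_dd_self (hu : IsSolOn I univ u) (ht : t ∈ I) {v p z q τ K : E n} {w : ℝ}
    (hp : p = gradient (u t) x) (hw : w = (1 + ‖p‖ ^ 2)⁻¹) (hz : z = Hv (u t) x v)
    (hq : q = Hv (u t) x p) (hτ : τ = Hv (dd v (u t)) x v) (hK : K = Hv (dd v (u t)) x p) :
    LJet p I t x (fun s y => dd v (dd v (u s)) y) τ
      (-4 * w * gip p z K - 2 * w * gip p τ q - 2 * w * inner ℝ z (Hv (u t) x z)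
        + 8 * w ^ 2 * inner ℝ p z * inner ℝ z q - 8 * w ^ 3 * inner ℝ p z ^ 2 * inner ℝ p q
        + 2 * w ^ 2 * inner ℝ z z * inner ℝ p q) := by
  refine ⟨(contDiff_dd (contDiff_dd (hu.contDiff ht) v) v).contDiffAt.of_le (by norm_cast),
    (gradient_dd (contDiff_dd (hu.contDiff ht) v) v x).trans hτ.symm, _,
    hu.hasDeriv_dd_dd ht v v x, ?_⟩
  rw [dd_dd_Fop (hu.contDiff ht) v x hp hw hz hq hτ hK]
  ring

lemma trA_zero (p : E n) : trA p 0 = 0 := by simp [trA]

/-- the affine function `-w ⟨z, y - x⟩`. -/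
lemma LJet_alpha {p : E n} (w : ℝ) (z : E n) :
    LJet p I t x (fun _ y => -w * inner ℝ z (y - x)) (-w • z) 0 := by
  have hd : ∀ y : E n, HasFDerivAt (fun y : E n => -w * inner ℝ z (y - x)) (-w • innerSL ℝ z) y := by
    intro y
    have h1 : HasFDerivAt (fun y : E n => y - x) (ContinuousLinearMap.id ℝ (E n)) y :=
      (hasFDerivAt_id y).sub_const x
    have h2 := ((innerSL ℝ z).hasFDerivAt.comp y h1).const_smul (-w)
    refine h2.congr_fderiv ?_
    ext a; simp
  have hc : ContDiffAt ℝ 2 (fun y : E n => -w * inner ℝ z (y - x)) x :=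
    contDiffAt_const.mul (contDiffAt_const.inner ℝ (contDiffAt_id.sub contDiffAt_const))
  refine (LJet.space hc).congr ?_ ?_
  · apply gradient_ext
    intro a
    rw [(hd x).fderiv, inner_smul_left]
    simp
  · have : hess (fun y : E n => -w * inner ℝ z (y - x)) x = 0 := by
      unfold hess
      have : fderiv ℝ (fun y : E n => -w * inner ℝ z (y - x)) = fun _ => -w • innerSL ℝ z :=
        funext fun y => (hd y).fderiv
      rw [this]; simp
    rw [this, trA_zero]; simp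

/-- The jet of `N(ξ(y)) = D²u(ξ(y), ξ(y))` along `ξ(y) = ξ - w⟨z, y-x⟩ p`, `z = D²u ξ`. -/
lemma LJet_N (hu : IsSolOn I univ u) (ht : t ∈ I) {v p z q τ : E n} {w : ℝ}
    (hp : p = gradient (u t) x) (hw : w = (1 + ‖p‖ ^ 2)⁻¹) (hz : z = Hv (u t) x v)
    (hq : q = Hv (u t) x p) (hτ : τ = Hv (dd v (u t)) x v) :
    LJet p I t x (fun s y => dd v (dd v (u s)) y
        + 2 * ((-w * inner ℝ z (y - x)) * dd p (dd v (u s)) y)
        + ((-w * inner ℝ z (y - x)) * (-w * inner ℝ z (y - x))) * dd p (dd p (u s)) y)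
      (τ - (2 * w * inner ℝ z p) • z)
      (-2 * w * gip p τ q - 2 * w * inner ℝ z (Hv (u t) x z)
        + 8 * w ^ 2 * inner ℝ p z * inner ℝ z q
        - 6 * w ^ 3 * inner ℝ p z ^ 2 * inner ℝ p q) := by
  have hf := hu.contDiff ht
  obtain ⟨l1, h1⟩ := LJet_dd_dd (x := x) hu ht p v
  obtain ⟨l2, h2⟩ := LJet_dd_dd (x := x) hu ht p p
  rw [← hp] at h1 h2
  have h0 := LJet_dd_self hu ht hp hw hz hq hτ (K := Hv (dd v (u t)) x p) rfl
  have ha : LJet p I t x (fun _ y => -w * inner ℝ z (y - x)) (-w • z) 0 := LJet_alpha w z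
  have h3 := (h0.add ((ha.mul h1).const_mul 2)).add ((ha.mul ha).mul h2)
  have e1 : dd p (dd v (u t)) x = inner ℝ z p := by
    rw [dd_dd_eq_hess hf, hz, inner_Hv]
  have e2 : dd p (dd p (u t)) x = inner ℝ p q := by
    rw [dd_dd_eq_hess hf, hq, ← inner_Hv, real_inner_comm]
  refine h3.congr ?_ ?_
  · rw [sub_self, inner_zero_right, e1, e2]
    module
  · simp only [sub_self, inner_zero_right, mul_zero, zero_mul, zero_smul, add_zero, zero_add, e1,
      e2, gip_smul_left, gip_smul_right, gip_zero_left]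
    have e3 : gip p z z = inner ℝ z z - w * (inner ℝ p z * inner ℝ p z) := by rw [hw]; rfl
    rw [e3]
    ring

/-- The jet of `g(ξ(y),ξ(y)) = |ξ(y)|² + ⟨Du, ξ(y)⟩²`. -/
lemma LJet_g (hu : IsSolOn I univ u) (ht : t ∈ I) {v p z q : E n} {w : ℝ}
    (hp : p = gradient (u t) x) (hw : w = (1 + ‖p‖ ^ 2)⁻¹) (hz : z = Hv (u t) x v)
    (hq : q = Hv (u t) x p) :
    LJet p I t x (fun s y => ‖v‖ ^ 2 + (2 * inner ℝ p v) * (-w * inner ℝ z (y - x))
        + ‖p‖ ^ 2 * ((-w * inner ℝ z (y - x)) * (-w * inner ℝ z (y - x)))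
        + (dd v (u s) y + (-w * inner ℝ z (y - x)) * dd p (u s) y)
          * (dd v (u s) y + (-w * inner ℝ z (y - x)) * dd p (u s) y))
      0 (-2 * w * gip p z z) := by
  have hf := hu.contDiff ht
  have h1 := LJet_dd (x := x) hu ht v
  have h2 := LJet_dd (x := x) hu ht p
  rw [← hp, ← hz, ← hw, ← hq] at h1
  rw [← hp, ← hq, ← hw] at h2
  have ha : LJet p I t x (fun _ y => -w * inner ℝ z (y - x)) (-w • z) 0 := LJet_alpha w z
  have h3 := h1.add (ha.mul h2)
  have h4 := (((LJet.const (‖v‖ ^ 2)).add (ha.const_mul (2 * inner ℝ p v))).add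
    ((ha.mul ha).const_mul (‖p‖ ^ 2))).add (h3.mul h3)
  have e1 : dd v (u t) x = inner ℝ p v := by
    unfold dd; rw [hp, inner_gradient]
  have e2 : dd p (u t) x = ‖p‖ ^ 2 := by
    unfold dd; rw [← real_inner_self_eq_norm_sq]; conv_rhs => rw [hp]
    rw [inner_gradient, ← hp]
  have hpos : 0 < 1 + ‖p‖ ^ 2 := by positivity
  have hw1 : w * (1 + ‖p‖ ^ 2) = 1 := by rw [hw]; field_simp
  refine h4.congr ?_ ?_
  · simp only [sub_self, inner_zero_right, mul_zero, zero_mul, zero_smul, add_zero, zero_add, e1,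
      e2, smul_zero, smul_smul]
    have : ∀ (a : ℝ), (2 * inner ℝ p v * -w) • z + (inner ℝ p v • (z + (‖p‖ ^ 2 * -w) • z)
        + inner ℝ p v • (z + (‖p‖ ^ 2 * -w) • z)) = (2 * inner ℝ p v * (1 - w * (1 + ‖p‖ ^ 2))) • z := by
      intro _
      module
    rw [this 0, hw1]
    simp
  · simp only [sub_self, inner_zero_right, mul_zero, zero_mul, zero_smul, add_zero, zero_add, e1,
      e2, gip_smul_left, gip_smul_right, gip_zero_left, gip_add_left, gip_add_right]
    have hn : ‖p‖ ^ 2 = 1 / w - 1 := by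
      rw [hw]; field_simp; ring
    have hw0 : w ≠ 0 := by rw [hw]; positivity
    rw [hn]
    field_simp
    ring
end

end Pool.Agent.GR
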