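import Pool.Agent.Helper35.GR.Defs2

/-!
# Calculus for the operator `L = ∂ₜ - gⁱʲ(Du) ∂ᵢⱼ` at a point (MP_114a94_gt, P0)
-/

set_option autoImplicit false

open scoped ContDiff Topology
open Set Filter MeasureTheory

namespace Pool.Agent.GR

open Pool.Agent.Helper25.GrimReaper

variable {n : ℕ}

/-- `trA p H = ∑ᵢ H eᵢ eᵢ - (1+|p|²)⁻¹ H p p`, i.e. `gⁱʲ(p) Hᵢⱼ`. -/
noncomputable def trA (p : E n) (H : E n →L[ℝ] E n →L[ℝ] ℝ) : ℝ :=
  (∑ i, H (ee i) (ee i)) - (1 + ‖p‖ ^ 2)⁻¹ * H p p

/-- `gip p d e = gⁱʲ(p) dᵢ eⱼ`. -/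
noncomputable def gip (p d e : E n) : ℝ :=
  inner ℝ d e - (1 + ‖p‖ ^ 2)⁻¹ * (inner ℝ p d * inner ℝ p e)

/-- At the point `(t,x)`, the function `f` (of time and space) is `C²` in space, has gradient
`d`, and `∂ₜ f - gⁱʲ(p) ∂ᵢⱼ f = l` (time derivative within `I`). -/
structure LJet (p : E n) (I : Set ℝ) (t : ℝ) (x : E n) (f : ℝ → E n → ℝ) (d : E n) (l : ℝ) :
    Prop where
  c2 : ContDiffAt ℝ 2 (f t) x
  grad : gradient (f t) x = d
  heat : ∃ ft : ℝ, HasDerivWithinAt (fun s => f s x) ft I t ∧ l = ft - trA p (hess (f t) x)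

/-- The vector `D²f(x) a`. -/
noncomputable def Hv (f : E n → ℝ) (x a : E n) : E n := riesz n (hess f x a)

/-! ### Algebra of `trA`, `gip` -/

lemma inner_gradient (f : E n → ℝ) (x w : E n) : inner ℝ (gradient f x) w = fderiv ℝ f x w := by
  rw [gradient_eq]; exact inner_riesz _ _

lemma inner_Hv (f : E n → ℝ) (x a w : E n) : inner ℝ (Hv f x a) w = hess f x a w :=
  inner_riesz _ _

lemma trA_add (p : E n) (H K : E n →L[ℝ] E n →L[ℝ] ℝ) : trA p (H + K) = trA p H + trA p K := by
  simp only [trA, add_apply, Finset.sum_add_distrib]; ring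

lemma trA_sub (p : E n) (H K : E n →L[ℝ] E n →L[ℝ] ℝ) : trA p (H - K) = trA p H - trA p K := by
  simp only [trA, sub_apply, Finset.sum_sub_distrib]; ring

lemma trA_smul (p : E n) (c : ℝ) (H : E n →L[ℝ] E n →L[ℝ] ℝ) : trA p (c • H) = c * trA p H := by
  simp only [trA, smul_apply, smul_eq_mul, ← Finset.mul_sum]; ring

lemma inner_eq_sum_pd (d e : E n) : inner ℝ d e = ∑ i, d i * e i := by
  rw [PiLp.inner_apply]
  refine Finset.sum_congr rfl fun i _ => ?_
  simp [mul_comm]

theorem gip_comm (p d e : E n) : gip p d e = gip p e d := by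
  unfold gip; rw [real_inner_comm]; ring

lemma gip_add_left (p d d' e : E n) : gip p (d + d') e = gip p d e + gip p d' e := by
  unfold gip; rw [inner_add_left, inner_add_right]; ring

lemma gip_smul_left (p : E n) (c : ℝ) (d e : E n) : gip p (c • d) e = c * gip p d e := by
  unfold gip; rw [inner_smul_left, inner_smul_right]; simp; ring

lemma gip_add_right (p d e e' : E n) : gip p d (e + e') = gip p d e + gip p d e' := by
  rw [gip_comm, gip_add_left, gip_comm p e, gip_comm p e']

lemma gip_smul_right (p : E n) (c : ℝ) (d e : E n) : gip p d (c • e) = c * gip p d e := by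
  rw [gip_comm, gip_smul_left, gip_comm]

lemma gip_zero_left (p e : E n) : gip p 0 e = 0 := by simp [gip]
lemma gip_zero_right (p e : E n) : gip p e 0 = 0 := by simp [gip]

lemma gip_sum_left {ι : Type*} (s : Finset ι) (p : E n) (D : ι → E n) (e : E n) :
    gip p (∑ a ∈ s, D a) e = ∑ a ∈ s, gip p (D a) e := by
  classical
  induction s using Finset.induction_on with
  | empty => simp [gip_zero_left]
  | insert a s ha ih => rw [Finset.sum_insert ha, Finset.sum_insert ha, gip_add_left, ih]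

/-- `trA` of a rank one form. -/
lemma trA_rank (p d e : E n) (H : E n →L[ℝ] E n →L[ℝ] ℝ)
    (hH : ∀ v w, H v w = inner ℝ d v * inner ℝ e w) : trA p H = gip p d e := by
  unfold trA gip
  congr 1
  · rw [inner_eq_sum_pd]
    refine Finset.sum_congr rfl fun i _ => ?_
    rw [hH, ← coord_eq_inner, ← coord_eq_inner]
  · rw [hH, real_inner_comm p d, real_inner_comm p e]

theorem gip_p_left (p e : E n) : gip p p e = (1 + ‖p‖ ^ 2)⁻¹ * inner ℝ p e := by
  unfold gip
  have h : 0 < 1 + ‖p‖ ^ 2 := by positivity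
  rw [real_inner_self_eq_norm_sq]
  field_simp
  ring

theorem gip_self_le (p d : E n) : gip p d d ≤ ‖d‖ ^ 2 := by
  unfold gip
  rw [real_inner_self_eq_norm_sq]
  have h : 0 < 1 + ‖p‖ ^ 2 := by positivity
  have : 0 ≤ (1 + ‖p‖ ^ 2)⁻¹ * (inner ℝ p d * inner ℝ p d) := by
    apply mul_nonneg (inv_nonneg.2 h.le) (mul_self_nonneg _)
  linarith

theorem le_gip_self (p d : E n) : (1 + ‖p‖ ^ 2)⁻¹ * ‖d‖ ^ 2 ≤ gip p d d := by
  unfold gip
  rw [real_inner_self_eq_norm_sq]
  have h : 0 < 1 + ‖p‖ ^ 2 := by positivity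
  have h1 : inner ℝ p d * inner ℝ p d ≤ ‖p‖ ^ 2 * ‖d‖ ^ 2 := by
    have := real_inner_mul_inner_self_le p d
    rw [real_inner_self_eq_norm_sq, real_inner_self_eq_norm_sq] at this
    exact this
  rw [le_sub_iff_add_le, ← mul_add, inv_mul_le_iff₀ h]
  nlinarith

lemma gip_self_nonneg (p d : E n) : 0 ≤ gip p d d :=
  le_trans (by positivity) (le_gip_self p d)

theorem gip_sq_le (p d e : E n) : gip p d e ^ 2 ≤ gip p d d * gip p e e := by
  have h : ∀ s : ℝ, 0 ≤ gip p e e * (s * s) + (2 * gip p d e) * s + gip p d d := by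
    intro s
    have := gip_self_nonneg p (d + s • e)
    rw [gip_add_left, gip_add_right, gip_add_right, gip_smul_left, gip_smul_left, gip_smul_right,
      gip_smul_right, gip_comm p e d] at this
    nlinarith
  have := discrim_le_zero h
  unfold discrim at this
  nlinarith

theorem abs_gip_le (p d e : E n) : |gip p d e| ≤ ‖d‖ * ‖e‖ := by
  apply abs_le_of_sq_le_sq _ (by positivity)
  calc gip p d e ^ 2 ≤ gip p d d * gip p e e := gip_sq_le p d e
    _ ≤ ‖d‖ ^ 2 * ‖e‖ ^ 2 :=
      mul_le_mul (gip_self_le p d) (gip_self_le p e) (gip_self_nonneg _ _) (by positivity)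
    _ = (‖d‖ * ‖e‖) ^ 2 := by ring

/-! ### Hessians -/

lemma eventually_differentiableAt {f : E n → ℝ} {x : E n} (hf : ContDiffAt ℝ 2 f x) :
    ∀ᶠ y in 𝓝 x, DifferentiableAt ℝ f y :=
  (hf.eventually (by simp)).mono fun _ hy => hy.differentiableAt (by norm_num)

lemma hess_mul_apply {f g : E n → ℝ} {x : E n} (hf : ContDiffAt ℝ 2 f x)
    (hg : ContDiffAt ℝ 2 g x) (v w : E n) :
    hess (fun y => f y * g y) x v w = f x * hess g x v w + g x * hess f x v w
      + fderiv ℝ f x v * fderiv ℝ g x w + fderiv ℝ g x v * fderiv ℝ f x w := by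
  have h1 : fderiv ℝ (fun y => f y * g y) =ᶠ[𝓝 x]
      fun y => f y • fderiv ℝ g y + g y • fderiv ℝ f y := by
    filter_upwards [eventually_differentiableAt hf, eventually_differentiableAt hg] with y h1 h2
    exact fderiv_fun_mul h1 h2
  have hf' := (hf.differentiableAt (by norm_num)).hasFDerivAt
  have hg' := (hg.differentiableAt (by norm_num)).hasFDerivAt
  have h2 := (hf'.smul (hasFDerivAt_fderiv hg)).add (hg'.smul (hasFDerivAt_fderiv hf))
  have h3 : hess (fun y => f y * g y) x = _ := (h1.fderiv_eq.trans h2.fderiv)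
  rw [h3]
  simp [ContinuousLinearMap.smulRight_apply]
  ring

lemma hess_comp_apply {f : E n → ℝ} {x : E n} (hf : ContDiffAt ℝ 2 f x) {φ : ℝ → ℝ}
    (hφ : ContDiffAt ℝ 2 φ (f x)) (v w : E n) :
    hess (fun y => φ (f y)) x v w = deriv φ (f x) * hess f x v w
      + deriv (deriv φ) (f x) * (fderiv ℝ f x v * fderiv ℝ f x w) := by
  have hφe : ∀ᶠ y in 𝓝 x, DifferentiableAt ℝ φ (f y) := by
    have h1 : ∀ᶠ s in 𝓝 (f x), ContDiffAt ℝ 2 φ s := hφ.eventually (by simp)
    exact (hf.continuousAt.eventually h1).mono fun y hy => hy.differentiableAt (by norm_num)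
  have h1 : fderiv ℝ (fun y => φ (f y)) =ᶠ[𝓝 x] fun y => deriv φ (f y) • fderiv ℝ f y := by
    filter_upwards [eventually_differentiableAt hf, hφe] with y h1 h2
    exact (h2.hasDerivAt.comp_hasFDerivAt y h1.hasFDerivAt).fderiv
  have h3 : DifferentiableAt ℝ (deriv φ) (f x) := by
    have h4 : ContDiffAt ℝ 1 (fderiv ℝ φ) (f x) := hφ.fderiv_right (m := 1) (by norm_num)
    have h5 : deriv φ = fun s => fderiv ℝ φ s 1 := by funext s; simp
    rw [h5]
    exact (h4.clm_apply contDiffAt_const).differentiableAt (by norm_num)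
  have hf' := (hf.differentiableAt (by norm_num)).hasFDerivAt
  have h4 := (h3.hasDerivAt.comp_hasFDerivAt x hf').smul (hasFDerivAt_fderiv hf)
  have h5 : hess (fun y => φ (f y)) x = _ := (h1.fderiv_eq.trans h4.fderiv)
  rw [h5]
  simp [ContinuousLinearMap.smulRight_apply]
  ring

lemma hess_congr {f g : E n → ℝ} {x : E n} (h : f =ᶠ[𝓝 x] g) : hess f x = hess g x :=
  (h.fderiv (𝕜 := ℝ)).fderiv_eq

lemma gradient_congr {f g : E n → ℝ} {x : E n} (h : f =ᶠ[𝓝 x] g) :
    gradient f x = gradient g x := by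
  rw [gradient_eq, gradient_eq]; simp only; rw [h.fderiv_eq]

lemma gradient_ext {f : E n → ℝ} {x d : E n} (h : ∀ w, fderiv ℝ f x w = inner ℝ d w) :
    gradient f x = d := by
  apply ext_inner_right ℝ
  intro w
  rw [inner_gradient, h]

/-! ### Rules for `LJet` -/

section
variable {p : E n} {I : Set ℝ} {t : ℝ} {x : E n} {f g : ℝ → E n → ℝ} {d e : E n} {l l' : ℝ}

theorem LJet.congr (h : LJet p I t x f d l) {d' : E n} {l' : ℝ} (hd : d = d') (hl : l = l') :
    LJet p I t x f d' l' := hd ▸ hl ▸ h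

lemma LJet.fderiv_apply (h : LJet p I t x f d l) (w : E n) :
    fderiv ℝ (f t) x w = inner ℝ d w := by rw [← h.grad, inner_gradient]

theorem LJet.add (h : LJet p I t x f d l) (h' : LJet p I t x g e l') :
    LJet p I t x (fun s y => f s y + g s y) (d + e) (l + l') where
  c2 := h.c2.add h'.c2
  grad := by
    apply gradient_ext
    intro w
    rw [fderiv_fun_add (h.c2.differentiableAt (by norm_num)) (h'.c2.differentiableAt (by norm_num)),
      add_apply, h.fderiv_apply, h'.fderiv_apply, inner_add_left]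
  heat := by
    obtain ⟨ft, h1, h2⟩ := h.heat
    obtain ⟨gt, h3, h4⟩ := h'.heat
    refine ⟨ft + gt, h1.add h3, ?_⟩
    rw [h2, h4, hess_add h.c2 h'.c2, trA_add]; ring

theorem LJet.sub (h : LJet p I t x f d l) (h' : LJet p I t x g e l') :
    LJet p I t x (fun s y => f s y - g s y) (d - e) (l - l') where
  c2 := h.c2.sub h'.c2
  grad := by
    apply gradient_ext
    intro w
    rw [fderiv_fun_sub (h.c2.differentiableAt (by norm_num)) (h'.c2.differentiableAt (by norm_num)),
      sub_apply, h.fderiv_apply, h'.fderiv_apply, inner_sub_left]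
  heat := by
    obtain ⟨ft, h1, h2⟩ := h.heat
    obtain ⟨gt, h3, h4⟩ := h'.heat
    refine ⟨ft - gt, h1.sub h3, ?_⟩
    rw [h2, h4, hess_sub h.c2 h'.c2, trA_sub]; ring

theorem LJet.mul (h : LJet p I t x f d l) (h' : LJet p I t x g e l') :
    LJet p I t x (fun s y => f s y * g s y) (f t x • e + g t x • d)
      (f t x * l' + g t x * l - 2 * gip p d e) where
  c2 := h.c2.mul h'.c2
  grad := by
    apply gradient_ext
    intro w
    rw [fderiv_fun_mul (h.c2.differentiableAt (by norm_num)) (h'.c2.differentiableAt (by norm_num))]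
    simp only [add_apply, smul_apply, h.fderiv_apply, h'.fderiv_apply, inner_add_left,
      inner_smul_left, smul_eq_mul]
    simp
  heat := by
    obtain ⟨ft, h1, h2⟩ := h.heat
    obtain ⟨gt, h3, h4⟩ := h'.heat
    refine ⟨ft * g t x + f t x * gt, h1.mul h3, ?_⟩
    have hH : hess (fun y => f t y * g t y) x = f t x • hess (g t) x + g t x • hess (f t) x
        + (hess (fun y => f t y * g t y) x - (f t x • hess (g t) x + g t x • hess (f t) x)) := by
      abel
    have hR : trA p (hess (fun y => f t y * g t y) x -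
        (f t x • hess (g t) x + g t x • hess (f t) x)) = 2 * gip p d e := by
      have : ∀ v w, (hess (fun y => f t y * g t y) x -
        (f t x • hess (g t) x + g t x • hess (f t) x)) v w =
          inner ℝ d v * inner ℝ e w + inner ℝ e v * inner ℝ d w := by
        intro v w
        simp only [sub_apply, add_apply, smul_apply, smul_eq_mul, hess_mul_apply h.c2 h'.c2,
          h.fderiv_apply, h'.fderiv_apply]
        ring
      unfold trA
      simp only [this]
      unfold gip
      rw [Finset.sum_add_distrib, inner_eq_sum_pd d e, real_inner_comm p d, real_inner_comm p e]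
      simp only [← coord_eq_inner]
      rw [show ∑ i, e i * d i = ∑ i, d i * e i from
        Finset.sum_congr rfl fun i _ => mul_comm _ _]
      ring
    rw [hH, trA_add, hR, trA_add, trA_smul, trA_smul, h2, h4]
    ring

theorem LJet.comp (h : LJet p I t x f d l) {φ : ℝ → ℝ} (hφ : ContDiffAt ℝ 2 φ (f t x)) :
    LJet p I t x (fun s y => φ (f s y)) (deriv φ (f t x) • d)
      (deriv φ (f t x) * l - deriv (deriv φ) (f t x) * gip p d d) where
  c2 := hφ.comp x h.c2
  grad := by
    apply gradient_ext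
    intro w
    have h1 := (hφ.differentiableAt (by norm_num)).hasDerivAt.comp_hasFDerivAt x
      (h.c2.differentiableAt (by norm_num)).hasFDerivAt
    have h2 : fderiv ℝ (fun y => φ (f t y)) x = _ := h1.fderiv
    rw [h2, smul_apply, h.fderiv_apply, inner_smul_left]
    simp
  heat := by
    obtain ⟨ft, h1, h2⟩ := h.heat
    refine ⟨deriv φ (f t x) * ft,
      (hφ.differentiableAt (by norm_num)).hasDerivAt.comp_hasDerivWithinAt t h1, ?_⟩
    have hH : hess (fun y => φ (f t y)) x = deriv φ (f t x) • hess (f t) x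
        + (hess (fun y => φ (f t y)) x - deriv φ (f t x) • hess (f t) x) := by abel
    have hR : trA p (hess (fun y => φ (f t y)) x - deriv φ (f t x) • hess (f t) x)
        = gip p (deriv (deriv φ) (f t x) • d) d := by
      apply trA_rank
      intro v w
      simp only [sub_apply, smul_apply, smul_eq_mul, hess_comp_apply h.c2 hφ, h.fderiv_apply,
        inner_smul_left]
      simp
      ring
    rw [hH, trA_add, hR, trA_smul, h2, gip_smul_left]
    ring

/-- functions of `x` only -/
theorem LJet.space {g : E n → ℝ} (hg : ContDiffAt ℝ 2 g x) :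
    LJet p I t x (fun _ y => g y) (gradient g x) (-trA p (hess g x)) where
  c2 := hg
  grad := rfl
  heat := ⟨0, hasDerivWithinAt_const _ _ _, by ring⟩

/-- functions of `t` only -/
theorem LJet.time {h : ℝ → ℝ} {h' : ℝ} (hh : HasDerivWithinAt h h' I t) :
    LJet p I t x (fun s _ => h s) 0 h' where
  c2 := contDiffAt_const
  grad := by
    apply gradient_ext
    intro w
    simp
  heat := by
    refine ⟨h', hh, ?_⟩
    have : hess (fun _ : E n => h t) x = 0 := by
      unfold hess
      have : fderiv ℝ (fun _ : E n => h t) = fun _ => 0 := by funext y; simp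
      rw [this]; simp
    rw [this]
    simp [trA]

theorem LJet.const (c : ℝ) : LJet p I t x (fun _ _ => c) 0 0 :=
  LJet.time (hasDerivWithinAt_const _ _ _)

theorem LJet.const_mul (c : ℝ) (h : LJet p I t x f d l) :
    LJet p I t x (fun s y => c * f s y) (c • d) (c * l) :=
  ((LJet.const c).mul h).congr (by simp) (by rw [gip_zero_left]; ring)

theorem LJet.sum {ι : Type*} (s : Finset ι) (F : ι → ℝ → E n → ℝ) (D : ι → E n) (l : ι → ℝ)
    (h : ∀ a ∈ s, LJet p I t x (F a) (D a) (l a)) :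
    LJet p I t x (fun r y => ∑ a ∈ s, F a r y) (∑ a ∈ s, D a) (∑ a ∈ s, l a) := by
  classical
  induction s using Finset.induction_on with
  | empty => simpa using LJet.const 0
  | insert a s ha ih =>
    have h1 := (h a (Finset.mem_insert_self a s)).add
      (ih fun b hb => h b (Finset.mem_insert_of_mem hb))
    simp only [Finset.sum_insert ha]
    exact h1

lemma hasFDerivAt_sqdist (x₀ y : E n) :
    HasFDerivAt (fun y : E n => ‖y - x₀‖ ^ 2) ((2 : ℝ) • innerSL ℝ (y - x₀)) y := by
  have h1 : HasFDerivAt (fun y : E n => y - x₀) (ContinuousLinearMap.id ℝ (E n)) y :=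
    (hasFDerivAt_id y).sub_const x₀
  refine h1.norm_sq.congr_fderiv ?_
  ext w; simp

lemma hess_sqdist (x₀ x v w : E n) :
    hess (fun y : E n => ‖y - x₀‖ ^ 2) x v w = 2 * inner ℝ v w := by
  have h1 : fderiv ℝ (fun y : E n => ‖y - x₀‖ ^ 2) = fun y => (2 : ℝ) • innerSL ℝ (y - x₀) :=
    funext fun y => (hasFDerivAt_sqdist x₀ y).fderiv
  have h2 : HasFDerivAt (fun y : E n => (2 : ℝ) • innerSL ℝ (y - x₀))
      ((2 : ℝ) • (innerSL ℝ : E n →L[ℝ] E n →L[ℝ] ℝ)) x := by
    have h3 : HasFDerivAt (fun y : E n => innerSL ℝ (y - x₀))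
        ((innerSL ℝ : E n →L[ℝ] E n →L[ℝ] ℝ).comp (ContinuousLinearMap.id ℝ (E n))) x :=
      (innerSL ℝ : E n →L[ℝ] E n →L[ℝ] ℝ).hasFDerivAt.comp x ((hasFDerivAt_id x).sub_const x₀)
    exact h3.const_smul (2 : ℝ)
  unfold hess
  rw [h1, h2.fderiv]
  simp only [smul_apply, smul_eq_mul]
  rfl

theorem LJet.sqdist (x₀ : E n) :
    LJet p I t x (fun _ y => ‖y - x₀‖ ^ 2) ((2 : ℝ) • (x - x₀))
      (-2 * (n - (1 + ‖p‖ ^ 2)⁻¹ * ‖p‖ ^ 2)) := by
  have hc : ContDiffAt ℝ 2 (fun y : E n => ‖y - x₀‖ ^ 2) x :=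
    (contDiffAt_id.sub contDiffAt_const).norm_sq ℝ
  refine (LJet.space hc).congr ?_ ?_
  · apply gradient_ext
    intro w
    rw [(hasFDerivAt_sqdist x₀ x).fderiv, inner_smul_left]
    simp only [smul_apply, smul_eq_mul]
    rfl
  · unfold trA
    simp only [hess_sqdist, real_inner_self_eq_norm_sq]
    simp
    ring

/-- the maximum principle -/
theorem LJet.max {T : ℝ} (ht : t ∈ Ioc 0 T) (h : LJet p (Icc 0 T) t x f d l)
    (hx : IsLocalMax (f t) x) (hs : ∀ s ∈ Icc 0 t, f s x ≤ f t x) : d = 0 ∧ 0 ≤ l := by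
  constructor
  · rw [← h.grad]
    apply gradient_ext
    intro w
    rw [hx.fderiv_eq_zero]; simp
  · obtain ⟨ft, h1, h2⟩ := h.heat
    have h3 : trA p (hess (f t) x) ≤ 0 :=
      trace_nonpos _ (fun w => hess_nonpos_of_isLocalMax h.c2 hx w) p
    have h4 : 0 ≤ ft := by
      have h5 : HasDerivWithinAt (fun s => f s x) ft (Icc 0 t) t :=
        h1.mono (Icc_subset_Icc_right ht.2)
      have h6 := (hasDerivWithinAt_iff_tendsto_slope' (s := Icc 0 t \ {t}) (by simp)).1
        (h5.mono sdiff_subset)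
      have hne : (𝓝[Icc 0 t \ {t}] t).NeBot := by
        have : Icc 0 t \ {t} = Ico 0 t := by
          ext s; constructor
          · rintro ⟨h1, h2⟩; exact ⟨h1.1, lt_of_le_of_ne h1.2 h2⟩
          · rintro ⟨h1, h2⟩; exact ⟨⟨h1, h2.le⟩, h2.ne⟩
        rw [this]
        exact mem_closure_iff_nhdsWithin_neBot.1
          (by rw [closure_Ico ht.1.ne]; exact right_mem_Icc.2 ht.1.le)
      refine ge_of_tendsto h6 ?_
      filter_upwards [self_mem_nhdsWithin] with s hs'
      rw [slope_def_field]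
      have h7 : s < t := lt_of_le_of_ne hs'.1.2 hs'.2
      exact div_nonneg_of_nonpos (by linarith [hs s hs'.1]) (by linarith)
    linarith
end

/-! ### The gradient of a solution -/

lemma Fop_eq_trA {f : E n → ℝ} {x : E n} (hf : ContDiffAt ℝ 2 f x) :
    Fop f x = trA (gradient f x) (hess f x) := by
  rw [← mcfOperator_eq_Fop hf, mcf_formula hf]; rfl

lemma trA_hess_eq {f g : E n → ℝ} {x : E n} (hg : ContDiffAt ℝ 2 g x) :
    trA (gradient f x) (hess g x) = ∑ i, ∑ j, gco f x i j * pd i (pd j g) x := by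
  unfold trA gco
  rw [norm_gradient_sq]
  have h1 : hess g x (gradient f x) (gradient f x)
      = ∑ i, ∑ j, pd i f x * pd j f x * pd i (pd j g) x := by
    have h1 := sum_basis ((hess g x).flip (gradient f x)) (gradient f x)
    simp only [ContinuousLinearMap.flip_apply] at h1
    rw [← h1]
    refine Finset.sum_congr rfl fun i _ => ?_
    have h2 := sum_basis (hess g x (EuclideanSpace.single i (1 : ℝ))) (gradient f x)
    rw [← h2, Finset.mul_sum]
    refine Finset.sum_congr rfl fun j _ => ?_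
    rw [gradient_apply, gradient_apply, ← hess_basis hg i j]
    ring
  rw [h1]
  simp only [sub_mul, Finset.sum_sub_distrib, ite_mul, one_mul, zero_mul, Finset.sum_ite_eq,
    Finset.mem_univ, if_true, hess_basis hg, Finset.mul_sum]
  congr 1
  exact Finset.sum_congr rfl fun i _ => Finset.sum_congr rfl fun j _ => by ring

section
variable {I : Set ℝ} {u : ℝ → E n → ℝ} {t : ℝ} {x : E n}

lemma IsSolOn.contDiff (hu : IsSolOn I univ u) (ht : t ∈ I) : ContDiff ℝ ∞ (u t) :=
  contDiffOn_univ.1 (hu.smooth t ht)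

lemma IsSolOn.contDiffAt (hu : IsSolOn I univ u) (ht : t ∈ I) : ContDiffAt ℝ 2 (u t) x :=
  (hu.contDiff ht).contDiffAt.of_le (by norm_cast)

theorem LJet_u (hu : IsSolOn I univ u) (ht : t ∈ I) :
    LJet (gradient (u t) x) I t x u (gradient (u t) x) 0 where
  c2 := hu.contDiffAt ht
  grad := rfl
  heat := ⟨Fop (u t) x, hu.deriv [] t ht x (mem_univ x), by
    rw [Fop_eq_trA (hu.contDiffAt ht)]; ring⟩

/-- for the remainder `R` of `Dw_Fop_structure w` -/
theorem LJet_Dw (hu : IsSolOn I univ u) (ht : t ∈ I) (w : List (Fin n)) :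
    LJet (gradient (u t) x) I t x (fun s y => Dw w (u s) y) (gradient (Dw w (u t)) x)
      (Dw w (Fop (u t)) x - ∑ i, ∑ j, gco (u t) x i j * Dw (i :: j :: w) (u t) x) := by
  have hc : ContDiffAt ℝ 2 (Dw w (u t)) x :=
    (contDiff_Dw (hu.contDiff ht) w).contDiffAt.of_le (by norm_cast)
  refine ⟨hc, rfl, Dw w (Fop (u t)) x, hu.deriv w t ht x (mem_univ x), ?_⟩
  rw [trA_hess_eq hc]
  rfl
end

end Pool.Agent.GR
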